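import Pool.Agent.Lib.MP_cea16d_an.Mautner

/-!
# Mixing of the horocycle flow for transitive `SL(2,ℝ)` actions
-/

noncomputable section

namespace Pool.Agent.Horo

open Matrix Filter Topology MeasureTheory
open scoped RealInnerProductSpace ENNReal

instance : MeasurableSpace SL2 := borel SL2
instance : BorelSpace SL2 := ⟨rfl⟩

instance : SecondCountableTopology (Matrix (Fin 2) (Fin 2) ℝ) :=
  inferInstanceAs (SecondCountableTopology (Fin 2 → Fin 2 → ℝ))

instance : SecondCountableTopology SL2 :=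
  (Matrix.SpecialLinearGroup.isClosedEmbedding_val (n := Fin 2) (R := ℝ)).isEmbedding.secondCountableTopology

instance : LocallyCompactSpace (Matrix (Fin 2) (Fin 2) ℝ) :=
  inferInstanceAs (LocallyCompactSpace (Fin 2 → Fin 2 → ℝ))

instance : LocallyCompactSpace SL2 :=
  (Matrix.SpecialLinearGroup.isClosedEmbedding_val (n := Fin 2) (R := ℝ)).locallyCompactSpace

instance : T2Space SL2 :=
  (Matrix.SpecialLinearGroup.isClosedEmbedding_val (n := Fin 2) (R := ℝ)).isEmbedding.t2Space

section

variable {X : Type*} [TopologicalSpace X] [R1Space X] [MeasurableSpace X] [BorelSpace X]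
  [MulAction SL2 X] [ContinuousSMul SL2 X] (μ : Measure X) [IsProbabilityMeasure μ]
  [μ.InnerRegularCompactLTTop] [SMulInvariantMeasure SL2 X μ]

/-- The Koopman representation on `L²`. -/
def koopman : Rep (Lp ℝ 2 μ) where
  op g := Lp.compMeasurePreservingₗᵢ ℝ (fun x => g⁻¹ • x) (measurePreserving_smul g⁻¹ μ)
  map_one v := by
    have h : ((1 : SL2)⁻¹ • · : X → X) = id := by ext x; simp
    have : DomMulAct.mk (1 : SL2)⁻¹ • v = v := by rw [inv_one]; exact one_smul _ v
    exact this
  map_mul g h v := by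
    have : DomMulAct.mk (g * h)⁻¹ • v = DomMulAct.mk g⁻¹ • DomMulAct.mk h⁻¹ • v := by
      rw [smul_smul, ← DomMulAct.mk_mul, _root_.mul_inv_rev]
    exact this
  cont v := by
    have h2 : Fact ((2 : ℝ≥0∞) ≠ ∞) := ⟨by simp⟩
    have : Continuous fun g : SL2 => DomMulAct.mk g⁻¹ • v :=
      (DomMulAct.continuous_mk.comp continuous_inv).smul continuous_const
    exact this

lemma koopman_coe (g : SL2) (v : Lp ℝ 2 μ) :
    ((koopman μ).op g v : X → ℝ) =ᵐ[μ] fun x => v (g⁻¹ • x) :=
  Lp.coeFn_compMeasurePreserving v (measurePreserving_smul g⁻¹ μ)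

/-- Mixing for sets. -/
theorem mixing_sets
    (herg : ∀ w : X → ℝ, Measurable w → (∀ g : SL2, ∀ᵐ x ∂μ, w (g • x) = w x) →
      ∃ c : ℝ, ∀ᵐ x ∂μ, w x = c) (A B : Set X) (hA : MeasurableSet A) (hB : MeasurableSet B) :
    Tendsto (fun t : ℝ => μ.real (A ∩ (fun x => uni t • x) ⁻¹' B)) (Bornology.cobounded ℝ)
      (𝓝 (μ.real A * μ.real B)) := by
  -- the two vectors
  let fB : X → ℝ := B.indicator fun _ => 1
  let fA : X → ℝ := fun x => A.indicator (fun _ => (1:ℝ)) x - μ.real A
  have hfB : MemLp fB 2 μ := memLp_indicator_const 2 hB 1 (Or.inr (measure_ne_top μ B))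
  have hfA : MemLp fA 2 μ :=
    (memLp_indicator_const 2 hA 1 (Or.inr (measure_ne_top μ A))).sub (memLp_const _)
  let u := hfB.toLp fB
  let v := hfA.toLp fA
  have hv : ∀ w : Lp ℝ 2 μ, (∀ g, (koopman μ).op g w = w) → ⟪w, v⟫ = 0 := by
    intro w hw
    obtain ⟨w', hw'm, hw'⟩ := (Lp.aestronglyMeasurable w).aemeasurable
    have h1 : ∀ g : SL2, ∀ᵐ x ∂μ, w' (g • x) = w' x := by
      intro g
      have e1 := koopman_coe μ g⁻¹ w
      rw [hw g⁻¹, inv_inv] at e1
      have e2 : ∀ᵐ x ∂μ, w (g • x) = w' (g • x) :=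
        (measurePreserving_smul g μ).quasiMeasurePreserving.ae hw'
      filter_upwards [e1, e2, hw'] with x h1 h2 h3
      rw [← h2, ← h1, h3]
    obtain ⟨c, hc⟩ := herg w' hw'm h1
    rw [L2.inner_def]
    have h2 : ∀ᵐ x ∂μ, (⟪w x, v x⟫ : ℝ) = c * fA x := by
      filter_upwards [hw', hc, hfA.coeFn_toLp] with x h1 h2 h3
      rw [h3, h1, h2]
      simp [mul_comm]
    rw [integral_congr_ae h2, integral_const_mul]
    have h3 : ∫ x, fA x ∂μ = 0 := by
      have : Integrable (A.indicator fun _ => (1:ℝ)) μ :=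
        (integrable_const (1:ℝ)).indicator hA
      simp only [fA]
      rw [integral_sub this (integrable_const _), integral_indicator hA]
      simp
    rw [h3, mul_zero]
  have hmix := (koopman μ).mixing u v hv
  have hval : ∀ t : ℝ, ⟪(koopman μ).op (uni t) u, v⟫ =
      μ.real (A ∩ (fun x => uni (-t) • x) ⁻¹' B) - μ.real A * μ.real B := by
    intro t
    rw [L2.inner_def]
    have hpre : MeasurableSet ((fun x : X => uni (-t) • x) ⁻¹' B) :=
      (measurable_const_smul (uni (-t))) hB
    have e2 : ∀ᵐ x ∂μ, u ((uni t)⁻¹ • x) = fB ((uni t)⁻¹ • x) :=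
      (measurePreserving_smul (uni t)⁻¹ μ).quasiMeasurePreserving.ae hfB.coeFn_toLp
    have h2 : ∀ᵐ x ∂μ, (⟪(koopman μ).op (uni t) u x, v x⟫ : ℝ) =
        (A ∩ (fun x => uni (-t) • x) ⁻¹' B).indicator (fun _ => (1:ℝ)) x -
        μ.real A * ((fun x => uni (-t) • x) ⁻¹' B).indicator (fun _ => (1:ℝ)) x := by
      filter_upwards [koopman_coe μ (uni t) u, e2, hfA.coeFn_toLp] with x h1 h2 h3
      rw [h3, h1, h2]
      rw [← uni_neg]
      simp only [fA, fB, Set.indicator, Set.mem_inter_iff, Set.mem_preimage]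
      by_cases hx1 : x ∈ A <;> by_cases hx2 : uni (-t) • x ∈ B <;> simp [hx1, hx2]
    rw [integral_congr_ae h2, integral_sub ((integrable_const (1:ℝ)).indicator (hA.inter hpre))
      (((integrable_const (1:ℝ)).indicator hpre).const_mul _), integral_const_mul,
      integral_indicator (hA.inter hpre), integral_indicator hpre]
    have h4 : μ.real ((fun x : X => uni (-t) • x) ⁻¹' B) = μ.real B :=
      (measurePreserving_smul (uni (-t)) μ).measureReal_preimage hB.nullMeasurableSet
    simp [h4]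
  simp only [hval] at hmix
  have h5 : Tendsto (fun t : ℝ => μ.real (A ∩ (fun x => uni (-t) • x) ⁻¹' B))
      (Bornology.cobounded ℝ) (𝓝 (μ.real A * μ.real B)) := by
    have := hmix.add_const (μ.real A * μ.real B)
    simpa using this
  have h6 : Tendsto (fun t : ℝ => -t) (Bornology.cobounded ℝ) (Bornology.cobounded ℝ) := by
    rw [← tendsto_norm_atTop_iff_cobounded]
    simp only [norm_neg]
    exact tendsto_norm_cobounded_atTop
  have h7 := h5.comp h6
  simpa [Function.comp_def] using h7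

end

end Pool.Agent.Horo
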