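import Pool.Agent.Lib.MP_cea16d_an.Limit

/-!
# Construction of the multi-scale data
-/

set_option linter.unusedSectionVars false

noncomputable section

namespace Pool.Agent.Horo

open Filter Topology MeasureTheory
open scoped RealInnerProductSpace

lemma exists_pos_lower {α : Type*} (s : Finset α) (f : α → ℝ) (hf : ∀ x ∈ s, 0 < f x) :
    ∃ m : ℝ, 0 < m ∧ m ≤ 1 ∧ ∀ x ∈ s, m ≤ f x := by
  classical
  induction s using Finset.induction_on with
  | empty => exact ⟨1, one_pos, le_refl _, fun x hx => absurd hx (Finset.notMem_empty x)⟩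
  | insert a s _ ih =>
    obtain ⟨m, h1, h2, h3⟩ := ih fun x hx => hf x (Finset.mem_insert_of_mem hx)
    refine ⟨min m (f a), lt_min h1 (hf a (Finset.mem_insert_self a s)),
      (min_le_left _ _).trans h2, fun x hx => ?_⟩
    rcases Finset.mem_insert.1 hx with h | h
    · rw [h]; exact min_le_right _ _
    · exact (min_le_left _ _).trans (h3 x h)

section

variable {X : Type*} [MeasurableSpace X] (μ : Measure X) [IsProbabilityMeasure μ]
  {I : Type*} (T : I → X → X) (V : Type*) [NormedAddCommGroup V] [InnerProductSpace ℝ V]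

/-- Good sets: the translates are nearly independent. -/
structure Good (E : Set X) : Prop where
  meas : MeasurableSet E
  pos : 0 < μ.real E
  dis : ∀ α β, α ≠ β → μ.real (T α ⁻¹' E ∩ T β ⁻¹' E) ≤ 2 * (μ.real E) ^ 2
  mix : ∀ θ : ℝ, 0 < θ → ∃ M : ℕ, ∀ α, ∀ s : Finset I,
      (∀ β ∈ s, θ < |μ.real (T α ⁻¹' E ∩ T β ⁻¹' E) - (μ.real E) ^ 2|) → s.card ≤ M

/-- A stage of the construction. -/
structure Stage (X : Type*) where
  /-- index -/
  idx : ℕ
  /-- threshold -/
  N : ℕ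
  /-- set -/
  E : Set X

variable {μ T}

/-- validity of a stage -/
def SP (μ : Measure X) (T : I → X → X) (x : Stage X) : Prop :=
  Good μ T x.E ∧ 1 ≤ x.N ∧ x.idx ≤ x.N ∧
    x.N * μ.real x.E ≤ 1 / 100 * (1 / 2) ^ (x.idx + 1)

/-- the decay property -/
def Dec (μ : Measure X) (T : I → X → X) (V : Type*) [NormedAddCommGroup V]
    [InnerProductSpace ℝ V] (E : Set X) (N : ℕ) (κ : ℝ) : Prop :=
  ∀ (F : Finset I) (b : I → V) (A : ℝ),
      (∀ α ∈ F, ‖b α‖ * N ≤ A) → ∑ α ∈ F, ‖b α‖ ≤ A →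
      ∫ x, ‖∑ α ∈ F, gf μ E (T α x) • b α‖ ∂μ ≤ κ * A

/-- compatibility of two stages -/
def SR (μ : Measure X) (T : I → X → X) (V : Type*) [NormedAddCommGroup V]
    [InnerProductSpace ℝ V] (x y : Stage X) : Prop :=
  x.idx < y.idx ∧ x.N ≤ y.N ∧
    y.N * μ.real y.E ≤ μ.real x.E * (1 / 100 * (1 / 2) ^ (y.idx + 1)) ∧
    Dec μ T V x.E y.N (ct (y.idx + 1) / 200)

theorem exists_mdata (hT : ∀ α, MeasurePreserving (T α) μ μ)
    (hgood : ∀ ε : ℝ, 0 < ε → ∃ E : Set X, Good μ T E ∧ μ.real E < ε) :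
    Nonempty (MData μ T V) := by
  have hstep : ∀ s : Finset (Stage X), (∀ x ∈ s, SP μ T x) → ∃ y, SP μ T y ∧
      ∀ x ∈ s, SR μ T V x y := by
    intro s hs
    set idx : ℕ := s.sup (fun x => x.idx) + 1 with hidx
    have hN₀ : ∀ x : Stage X, ∃ N₀ : ℕ, SP μ T x → ∀ N : ℕ, N₀ ≤ N →
        Dec μ T V x.E N (ct (idx + 1) / 200) := by
      intro x
      by_cases hx : SP μ T x
      · obtain ⟨N₀, h⟩ := exists_decay (V := V) hx.1.meas hx.1.pos hT hx.1.mix
          (ct (idx + 1) / 200) (by have := ct_pos (idx + 1); positivity)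
        exact ⟨N₀, fun _ N hN => h N hN⟩
      · exact ⟨0, fun h => absurd h hx⟩
    choose N₀ hN₀ using hN₀
    set N : ℕ := s.sup (fun x => x.N + N₀ x) + idx + 1 with hN
    obtain ⟨m, hm1, hm2, hm3⟩ := exists_pos_lower s (fun x => μ.real x.E)
      fun x hx => (hs x hx).1.pos
    have hNpos : (0:ℝ) < N := by
      have : 0 < N := by omega
      exact_mod_cast this
    obtain ⟨E, hE, hEs⟩ := hgood (m * (1 / 100 * (1 / 2) ^ (idx + 1)) / N) (by positivity)
    have hsm : N * μ.real E ≤ m * (1 / 100 * (1 / 2) ^ (idx + 1)) := by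
      rw [lt_div_iff₀ hNpos] at hEs
      linarith
    have hpow : (0:ℝ) ≤ 1 / 100 * (1 / 2) ^ (idx + 1) := by positivity
    refine ⟨⟨idx, N, E⟩, ⟨hE, ?_, ?_, ?_⟩, fun x hx => ⟨?_, ?_, ?_, ?_⟩⟩
    · show 1 ≤ N
      omega
    · show idx ≤ N
      omega
    · exact hsm.trans (mul_le_of_le_one_left hpow hm2)
    · show x.idx < idx
      have : x.idx ≤ s.sup (fun x => x.idx) := Finset.le_sup (f := fun x : Stage X => x.idx) hx
      omega
    · show x.N ≤ N
      have : x.N + N₀ x ≤ s.sup (fun x => x.N + N₀ x) :=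
        Finset.le_sup (f := fun x : Stage X => x.N + N₀ x) hx
      omega
    · exact hsm.trans (mul_le_mul_of_nonneg_right (hm3 x hx) hpow)
    · refine hN₀ x (hs x hx) N ?_
      have : x.N + N₀ x ≤ s.sup (fun x => x.N + N₀ x) :=
        Finset.le_sup (f := fun x : Stage X => x.N + N₀ x) hx
      omega
  obtain ⟨f, hf1, hf2⟩ := exists_seq_of_forall_finset_exists (SP μ T) (SR μ T V) hstep
  have hmono : StrictMono fun n => (f n).idx := fun m n hmn => (hf2 m n hmn).1
  have hidx : ∀ n, n ≤ (f n).idx := fun n => hmono.id_le n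
  have hpow : ∀ n, (1:ℝ) / 100 * (1 / 2) ^ ((f n).idx + 1) ≤ 1 / 100 * (1 / 2) ^ (n + 1) := by
    intro n
    refine mul_le_mul_of_nonneg_left ?_ (by norm_num)
    exact pow_le_pow_of_le_one (by norm_num) (by norm_num) (by have := hidx n; omega)
  refine ⟨{
    N := fun j => (f j).N
    E := fun j => (f j).E
    meas := fun j => (hf1 j).1.meas
    pos := fun j => (hf1 j).1.pos
    dis := fun j => (hf1 j).1.dis
    N1 := fun j => (hf1 j).2.1
    Nge := fun j => (hidx j).trans (hf1 j).2.2.1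
    Nmono := monotone_nat_of_le_succ fun j => (hf2 j (j + 1) (Nat.lt_succ_self j)).2.1
    small := fun j => (hf1 j).2.2.2.trans (hpow j)
    small2 := fun i j hij => ?_
    decay := fun i j hij F b A h1 h2 => ?_ }⟩
  · exact (hf2 i j hij).2.2.1.trans (mul_le_mul_of_nonneg_left (hpow j) (hf1 i).1.pos.le)
  · have hA : 0 ≤ A := (Finset.sum_nonneg fun α _ => norm_nonneg _).trans h2
    refine ((hf2 i j hij).2.2.2 F b A h1 h2).trans ?_
    refine mul_le_mul_of_nonneg_right ?_ hA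
    have : ct ((f j).idx + 1) ≤ ct (j + 1) := ct_anti (by have := hidx j; omega)
    linarith

variable (μ T) in
/-- **Abstract theorem.** If there are arbitrarily small sets whose translates are nearly
independent, then there is `η ∈ L¹` such that `(η ∘ T_α)_α` is unconditional. -/
theorem abstract_unconditional [Nonempty I] [Nontrivial V]
    (hT : ∀ α, MeasurePreserving (T α) μ μ)
    (hgood : ∀ ε : ℝ, 0 < ε → ∃ E : Set X, Good μ T E ∧ μ.real E < ε) :
    ∃ η : X → ℝ, StronglyMeasurable η ∧ Integrable η μ ∧ 0 < ∫ x, |η x| ∂μ ∧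
      ∀ (F : Finset I) (a b : I → V), (∀ α ∈ F, ‖a α‖ = ‖b α‖) →
        ∫ x, ‖∑ α ∈ F, η (T α x) • a α‖ ∂μ ≤ 6 * ∫ x, ‖∑ α ∈ F, η (T α x) • b α‖ ∂μ := by
  obtain ⟨D⟩ := exists_mdata V hT hgood
  exact D.exists_eta hT

end

end Pool.Agent.Horo
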