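import Pool.Agent.Lib.MP_cea16d_an.Action

/-!
# Transitive actions are ergodic; arbitrarily small sets
-/

noncomputable section

namespace Pool.Agent.Horo

open Matrix Filter Topology MeasureTheory
open scoped ENNReal

section

variable {X : Type*} [TopologicalSpace X] [SecondCountableTopology X] [MeasurableSpace X]
  [BorelSpace X] [MulAction SL2 X] [ContinuousSMul SL2 X] (μ : Measure X)
  [IsProbabilityMeasure μ]


theorem ergodic_of_transitive (htrans : ∀ x y : X, ∃ g : SL2, g • x = y)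
    (w : X → ℝ) (hw : Measurable w) (h : ∀ g : SL2, ∀ᵐ x ∂μ, w (g • x) = w x) :
    ∃ c : ℝ, ∀ᵐ x ∂μ, w x = c := by
  obtain ⟨ν, hν1, hν2, hν3, hν4⟩ : ∃ ν : Measure SL2, ν.IsMulLeftInvariant ∧ SigmaFinite ν ∧
      ν ≠ 0 ∧ SFinite ν :=
    ⟨Measure.haar, inferInstance, inferInstance, NeZero.ne _, inferInstance⟩
  have hν5 : NeZero ν := ⟨hν3⟩
  have hsm : Measurable (fun p : SL2 × X => p.1 • p.2) :=
    (continuous_smul (M := SL2) (X := X)).measurable
  have hm : MeasurableSet {p : SL2 × X | w (p.1 • p.2) = w p.2} :=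
    measurableSet_eq_fun (hw.comp hsm) (hw.comp measurable_snd)
  have h1 : ∀ᵐ g ∂ν, ∀ᵐ x ∂μ, w (g • x) = w x := Filter.Eventually.of_forall h
  replace h1 : ∀ᵐ x ∂μ, ∀ᵐ g ∂ν, w (g • x) = w x := (Measure.ae_ae_comm hm).1 h1
  obtain ⟨x0, hx0⟩ := h1.exists
  refine ⟨w x0, ?_⟩
  filter_upwards [h1] with x1 hx1
  obtain ⟨g0, hg0⟩ := htrans x0 x1
  have h2 : ∀ᵐ g ∂ν, w ((g * g0) • x0) = w x0 :=
    (quasiMeasurePreserving_mul_right ν g0).ae hx0
  obtain ⟨g, hg1, hg2⟩ := (hx1.and h2).exists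
  rw [← hg1, ← hg0, smul_smul, hg2]

/-- Arbitrarily small sets of positive measure. -/
theorem exists_small [CompactSpace X] [μ.OuterRegular]
    (h0 : ∀ x : X, μ {x} = 0) (ε : ℝ≥0∞) (hε : ε ≠ 0) :
    ∃ E : Set X, MeasurableSet E ∧ 0 < μ E ∧ μ E < ε := by
  have h1 : ∀ x : X, ∃ U : Set X, IsOpen U ∧ x ∈ U ∧ μ U < ε := by
    intro x
    obtain ⟨U, hU1, hU2, hU3⟩ := Set.exists_isOpen_lt_of_lt ({x} : Set X) ε
      (by rw [h0 x]; exact pos_iff_ne_zero.2 hε)
    exact ⟨U, hU2, hU1 rfl, hU3⟩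
  choose U hUo hUx hUε using h1
  obtain ⟨t, ht⟩ := isCompact_univ.elim_finite_subcover U hUo (fun x _ => Set.mem_iUnion.2 ⟨x, hUx x⟩)
  by_contra hcon
  push Not at hcon
  have h2 : ∀ x, μ (U x) = 0 := by
    intro x
    by_contra hne
    have := hcon (U x) (hUo x).measurableSet (pos_iff_ne_zero.2 hne)
    exact absurd (hUε x) (not_lt.2 this)
  have h3 : μ Set.univ ≤ ∑ x ∈ t, μ (U x) :=
    (measure_mono ht).trans (measure_biUnion_finset_le t U)
  simp only [h2, Finset.sum_const_zero, measure_univ] at h3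
  exact absurd h3 (by simp)

end

end Pool.Agent.Horo
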