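import Pool.Agent.Lib.MP_cea16d_an.Build
import Pool.Agent.Lib.MP_cea16d_an.Ergodic

/-!
# Application to horocycle flows
-/

set_option linter.unusedSectionVars false

noncomputable section

namespace Pool.Agent.Horo

open Filter Topology MeasureTheory
open scoped RealInnerProductSpace ENNReal

section

variable {X : Type*} [TopologicalSpace X] [CompactSpace X] [R1Space X]
  [SecondCountableTopology X] [MeasurableSpace X] [BorelSpace X]
  [MulAction SL2 X] [ContinuousSMul SL2 X] (μ : Measure X) [IsProbabilityMeasure μ]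
  [μ.InnerRegularCompactLTTop] [μ.OuterRegular] [SMulInvariantMeasure SL2 X μ]

/-- The self-correlation of a set along the horocycle flow. -/
def corr (E : Set X) (t : ℝ) : ℝ := μ.real (E ∩ (fun x : X => uni t • x) ⁻¹' E)

lemma measure_translate (E : Set X) (hE : MeasurableSet E) (s t t' : ℝ) :
    μ.real ((fun x : X => uni t • x) ⁻¹' ((fun x : X => dia s • x) ⁻¹' E) ∩
      (fun x : X => uni t' • x) ⁻¹' ((fun x : X => dia s • x) ⁻¹' E)) =
      corr μ E (Real.exp (2 * s) * (t' - t)) := by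
  -- the set is the preimage of `E ∩ ...` under `uni (e^{2s} t) * dia s`
  have hcomm : ∀ t, dia s * uni t = uni (Real.exp (2 * s) * t) * dia s := by
    intro t
    have := dia_uni_dia s t
    rw [dia_neg, mul_inv_eq_iff_eq_mul] at this
    exact this
  have hset : (fun x : X => uni t • x) ⁻¹' ((fun x : X => dia s • x) ⁻¹' E) ∩
      (fun x : X => uni t' • x) ⁻¹' ((fun x : X => dia s • x) ⁻¹' E) =
      (fun x : X => (uni (Real.exp (2 * s) * t) * dia s) • x) ⁻¹'
        (E ∩ (fun x : X => uni (Real.exp (2 * s) * (t' - t)) • x) ⁻¹' E) := by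
    ext x
    simp only [Set.mem_inter_iff, Set.mem_preimage, smul_smul]
    rw [hcomm, hcomm, ← mul_assoc, ← uni_add]
    have : Real.exp (2 * s) * (t' - t) + Real.exp (2 * s) * t = Real.exp (2 * s) * t' := by ring
    rw [this]
  rw [hset, corr]
  refine (measurePreserving_smul (uni (Real.exp (2 * s) * t) * dia s) μ).measureReal_preimage ?_
  exact (hE.inter ((measurable_const_smul (uni (Real.exp (2 * s) * (t' - t)))) hE)).nullMeasurableSet

theorem exists_good (htrans : ∀ x y : X, ∃ g : SL2, g • x = y) (h0 : ∀ x : X, μ {x} = 0)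
    {I : Type*} (m : I → ℤ) (hm : Function.Injective m) (r : ℕ) (hr : 0 < r)
    (ε : ℝ) (hε : 0 < ε) :
    ∃ E : Set X, Good μ (fun (α : I) (x : X) => uni ((m α : ℝ) / r) • x) E ∧ μ.real E < ε := by
  obtain ⟨E₀, hE₀, hpos, hlt⟩ := exists_small μ h0 (ENNReal.ofReal ε)
    (by simpa using hε)
  have hpos' : 0 < μ.real E₀ := by
    rw [measureReal_def]
    exact ENNReal.toReal_pos hpos.ne' (measure_ne_top μ E₀)
  have hlt' : μ.real E₀ < ε := by
    rw [measureReal_def]
    exact (ENNReal.lt_ofReal_iff_toReal_lt (measure_ne_top μ E₀)).1 hlt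
  have hmix : Tendsto (corr μ E₀) (Bornology.cobounded ℝ) (𝓝 (μ.real E₀ * μ.real E₀)) :=
    mixing_sets μ (fun w hw h => ergodic_of_transitive μ htrans w hw h) E₀ E₀ hE₀ hE₀
  have hmix' : ∀ θ : ℝ, 0 < θ → ∃ R : ℝ, ∀ t : ℝ, R ≤ |t| →
      |corr μ E₀ t - (μ.real E₀) ^ 2| ≤ θ := by
    intro θ hθ
    have h1 : ∀ᶠ t in Bornology.cobounded ℝ, |corr μ E₀ t - (μ.real E₀) ^ 2| ≤ θ := by
      have h2 := (Metric.tendsto_nhds.1 hmix) θ hθ
      filter_upwards [h2] with t ht
      rw [Real.dist_eq, ← sq] at ht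
      exact ht.le
    obtain ⟨R, -, hR⟩ := (hasBasis_cobounded_norm (E := ℝ)).eventually_iff.1 h1
    exact ⟨R, fun t ht => hR (by simpa using ht)⟩
  obtain ⟨R₀, hR₀⟩ := hmix' ((μ.real E₀) ^ 2) (by positivity)
  have hrpos : (0:ℝ) < r := by exact_mod_cast hr
  -- choice of the renormalisation time
  obtain ⟨s, hs0, hs⟩ : ∃ s : ℝ, 0 ≤ s ∧ R₀ * r ≤ Real.exp (2 * s) := by
    refine ⟨max 0 (R₀ * r), le_max_left _ _, ?_⟩
    have h1 : R₀ * r ≤ max 0 (R₀ * r) := le_max_right _ _
    have h2 : 0 ≤ max 0 (R₀ * r) := le_max_left _ _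
    have h3 := Real.add_one_le_exp (2 * max 0 (R₀ * r))
    linarith
  have hexp1 : 1 ≤ Real.exp (2 * s) := Real.one_le_exp (by positivity)
  have hEmeas : MeasurableSet ((fun x : X => dia s • x) ⁻¹' E₀) :=
    (measurable_const_smul (dia s)) hE₀
  have hEreal : μ.real ((fun x : X => dia s • x) ⁻¹' E₀) = μ.real E₀ :=
    (measurePreserving_smul (dia s) μ).measureReal_preimage hE₀.nullMeasurableSet
  have hcorr : ∀ α β : I, μ.real ((fun x : X => uni ((m α : ℝ) / r) • x) ⁻¹'
      ((fun x : X => dia s • x) ⁻¹' E₀) ∩ (fun x : X => uni ((m β : ℝ) / r) • x) ⁻¹'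
      ((fun x : X => dia s • x) ⁻¹' E₀)) =
      corr μ E₀ (Real.exp (2 * s) * (((m β : ℝ) - m α) / r)) := by
    intro α β
    rw [measure_translate μ E₀ hE₀, sub_div]
  have habs : ∀ α β : I, |Real.exp (2 * s) * (((m β : ℝ) - m α) / r)| =
      Real.exp (2 * s) * (|((m β - m α : ℤ) : ℝ)| / r) := by
    intro α β
    rw [abs_mul, abs_div, abs_of_pos (Real.exp_pos _), abs_of_pos hrpos]
    push_cast
    rfl
  refine ⟨(fun x : X => dia s • x) ⁻¹' E₀, ⟨hEmeas, by rw [hEreal]; exact hpos', ?_, ?_⟩,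
    by rw [hEreal]; exact hlt'⟩
  · intro α β hαβ
    rw [hEreal, hcorr]
    have h1 : (1:ℝ) ≤ |((m β - m α : ℤ) : ℝ)| := by
      have : m β - m α ≠ 0 := fun h => hαβ (hm (by omega))
      exact_mod_cast Int.one_le_abs this
    have h2 : R₀ ≤ |Real.exp (2 * s) * (((m β : ℝ) - m α) / r)| := by
      rw [habs]
      calc R₀ ≤ Real.exp (2 * s) * (1 / r) := by
            rw [mul_one_div, le_div_iff₀ hrpos]; exact hs
        _ ≤ _ := by gcongr
    have h3 := hR₀ _ h2
    have := (abs_le.1 h3).2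
    linarith
  · intro θ hθ
    obtain ⟨R, hR⟩ := hmix' θ hθ
    obtain ⟨K, hK⟩ := exists_nat_ge (R * r)
    refine ⟨2 * K + 1, fun α S hS => ?_⟩
    have h1 : ∀ β ∈ S, m β ∈ Finset.Icc (m α - K) (m α + K) := by
      intro β hβ
      have h2 := hS β hβ
      rw [hEreal, hcorr] at h2
      have h3 : |Real.exp (2 * s) * (((m β : ℝ) - m α) / r)| < R := by
        by_contra hcon
        exact absurd (hR _ (not_lt.1 hcon)) (not_le.2 h2)
      rw [habs] at h3
      have h4 : |((m β - m α : ℤ) : ℝ)| / r < R := by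
        refine lt_of_le_of_lt ?_ h3
        exact le_mul_of_one_le_left (by positivity) hexp1
      rw [div_lt_iff₀ hrpos] at h4
      have h5 : |((m β - m α : ℤ) : ℝ)| < K := lt_of_lt_of_le h4 hK
      have h6 : |m β - m α| < K := by exact_mod_cast h5
      rw [abs_lt] at h6
      rw [Finset.mem_Icc]
      omega
    have h7 : S.card ≤ (Finset.Icc (m α - (K:ℤ)) (m α + K)).card :=
      Finset.card_le_card_of_injOn m h1 hm.injOn
    refine h7.trans (le_of_eq ?_)
    rw [Int.card_Icc]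
    omega

/-- **Main dynamical theorem.** -/
theorem exists_eta_flow (htrans : ∀ x y : X, ∃ g : SL2, g • x = y) (h0 : ∀ x : X, μ {x} = 0)
    {I : Type*} [Nonempty I] (m : I → ℤ) (hm : Function.Injective m) (r : ℕ) (hr : 0 < r)
    (V : Type*) [NormedAddCommGroup V] [InnerProductSpace ℝ V] [Nontrivial V] :
    ∃ η : X → ℝ, StronglyMeasurable η ∧ Integrable η μ ∧ 0 < ∫ x, |η x| ∂μ ∧
      ∀ (F : Finset I) (a b : I → V), (∀ α ∈ F, ‖a α‖ = ‖b α‖) →
        ∫ x, ‖∑ α ∈ F, η (uni ((m α : ℝ) / r) • x) • a α‖ ∂μ ≤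
          6 * ∫ x, ‖∑ α ∈ F, η (uni ((m α : ℝ) / r) • x) • b α‖ ∂μ :=
  abstract_unconditional μ (fun (α : I) (x : X) => uni ((m α : ℝ) / r) • x) V
    (fun α => measurePreserving_smul _ μ) (exists_good μ htrans h0 m hm r hr)

end

end Pool.Agent.Horo
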