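import Pool.Agent.Lib.MP_cea16d_an.Quot

/-!
# Koopman orbits on `L¹(Γ \ PSL(2,ℝ))`
-/

set_option linter.unusedSectionVars false

noncomputable section

namespace Pool.Agent.Horo

open Filter Topology MeasureTheory
open scoped ENNReal

/-- Unconditionality in `L¹(μ)` of a family of integrable functions `f i` (the definition of the
problem; the `L¹` norm of a function `g` is `∫ ‖g x‖ dμ(x)`). -/
def L1Unconditional {X : Type*} [MeasurableSpace X] (μ : Measure X) {𝕜 : Type*} [RCLike 𝕜]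
    {ι : Type*} (f : ι → X → 𝕜) : Prop :=
  ∃ C : ℝ, 1 ≤ C ∧ ∀ (J : Finset ι) (a ε : ι → 𝕜), (∀ i, ε i = 1 ∨ ε i = -1) →
    C⁻¹ * ∫ x, ‖∑ i ∈ J, a i * f i x‖ ∂μ ≤ ∫ x, ‖∑ i ∈ J, ε i * a i * f i x‖ ∂μ ∧
    ∫ x, ‖∑ i ∈ J, ε i * a i * f i x‖ ∂μ ≤ C * ∫ x, ‖∑ i ∈ J, a i * f i x‖ ∂μ

variable (Γ : Subgroup PSL2)

/-- The time-one map `T(Γ g) = Γ g (1 1; 0 1)` of the horocycle flow on `Γ \ PSL(2,ℝ)`. -/
def horo : Equiv.Perm (XG Γ) := rtrans Γ (toPSL (uni 1))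

lemma rtrans_mul (h k : PSL2) : rtrans Γ h * rtrans Γ k = rtrans Γ (k * h) := by
  ext x
  exact rtransFun_mul Γ k h x

lemma rtrans_one : rtrans Γ 1 = 1 := by
  ext x
  exact rtransFun_one Γ x

lemma rtrans_inv (h : PSL2) : (rtrans Γ h)⁻¹ = rtrans Γ h⁻¹ := by
  rw [inv_eq_iff_mul_eq_one, rtrans_mul, inv_mul_cancel, rtrans_one]

lemma horo_pow (n : ℕ) : horo Γ ^ n = rtrans Γ (toPSL (uni n)) := by
  induction n with
  | zero => rw [pow_zero, Nat.cast_zero, uni_zero, map_one, rtrans_one]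
  | succ n ih =>
    rw [pow_succ, ih, horo, rtrans_mul, ← map_mul, ← uni_add]
    push_cast
    rw [add_comm]

lemma horo_zpow (k : ℤ) : horo Γ ^ k = rtrans Γ (toPSL (uni k)) := by
  rcases Int.eq_nat_or_neg k with ⟨n, rfl | rfl⟩
  · rw [zpow_natCast, horo_pow, Int.cast_natCast]
  · rw [zpow_neg, zpow_natCast, horo_pow, rtrans_inv, ← map_inv, ← uni_neg, Int.cast_neg,
      Int.cast_natCast]

variable {Γ} {μ : Measure (XG Γ)}

lemma smulInvariant (hμ : ∀ h : PSL2, MeasurePreserving (rtrans Γ h) μ μ) :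
    SMulInvariantMeasure SL2 (XG Γ) μ where
  measure_preimage_smul g s hs := by
    have := (hμ (toPSL g)⁻¹).measure_preimage hs.nullMeasurableSet
    exact this

/-- The dynamical theorem for real or complex scalars. -/
theorem exists_eta_rclike [DiscreteTopology Γ] [CompactSpace (XG Γ)] [IsProbabilityMeasure μ]
    [SMulInvariantMeasure SL2 (XG Γ) μ] (𝕜 : Type*) [RCLike 𝕜]
    {I : Type*} [Nonempty I] (m : I → ℤ) (hm : Function.Injective m) (r : ℕ) (hr : 0 < r) :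
    ∃ η : XG Γ → ℝ, StronglyMeasurable η ∧ Integrable η μ ∧ 0 < ∫ x, |η x| ∂μ ∧
      ∀ (F : Finset I) (a b : I → 𝕜), (∀ α ∈ F, ‖a α‖ = ‖b α‖) →
        ∫ x, ‖∑ α ∈ F, ((η (uni ((m α : ℝ) / r) • x) : ℝ) : 𝕜) * a α‖ ∂μ ≤
          6 * ∫ x, ‖∑ α ∈ F, ((η (uni ((m α : ℝ) / r) • x) : ℝ) : 𝕜) * b α‖ ∂μ := by
  let _inst : InnerProductSpace ℝ 𝕜 := InnerProductSpace.rclikeToReal 𝕜 𝕜
  exact exists_eta_flow μ (transitive Γ) (measure_singleton Γ μ) m hm r hr 𝕜

/-- The main construction: one function for the whole family of translates by multiples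
of `1/r`. -/
theorem exists_family [DiscreteTopology Γ] [CompactSpace (XG Γ)] [IsProbabilityMeasure μ]
    (hμ : ∀ h : PSL2, MeasurePreserving (rtrans Γ h) μ μ) (𝕜 : Type*) [RCLike 𝕜]
    (r : ℕ) (hr : 0 < r) :
    ∃ η : Fin r → XG Γ → 𝕜, (∀ j, Integrable (η j) μ ∧ ¬ η j =ᵐ[μ] 0) ∧
      L1Unconditional μ fun (p : Fin r × ℤ) (x : XG Γ) => η p.1 ((horo Γ ^ p.2) x) := by
  have hinv := smulInvariant hμ
  have hrpos : (0:ℝ) < r := by exact_mod_cast hr
  have hne : Nonempty (Fin r × ℤ) := ⟨(⟨0, hr⟩, 0)⟩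
  -- the index map
  let m : Fin r × ℤ → ℤ := fun p => -(p.2 * r + p.1)
  have hm : Function.Injective m := by
    rintro ⟨i, k⟩ ⟨j, l⟩ h
    have h1 : k * r + (i : ℤ) = l * r + (j : ℤ) := by
      have : -(k * r + ((i : ℕ) : ℤ)) = -(l * r + ((j : ℕ) : ℤ)) := h
      linarith
    have hi : ((i : ℕ) : ℤ) < r := by exact_mod_cast i.2
    have hj : ((j : ℕ) : ℤ) < r := by exact_mod_cast j.2
    have hi0 : (0:ℤ) ≤ (i : ℕ) := Int.natCast_nonneg _
    have hj0 : (0:ℤ) ≤ (j : ℕ) := Int.natCast_nonneg _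
    have h2 : k = l := by
      have e1 : (k * r + (i : ℤ)) / r = k := by
        rw [add_comm, Int.add_mul_ediv_right _ _ (by omega), Int.ediv_eq_zero_of_lt hi0 hi, zero_add]
      have e2 : (l * r + (j : ℤ)) / r = l := by
        rw [add_comm, Int.add_mul_ediv_right _ _ (by omega), Int.ediv_eq_zero_of_lt hj0 hj, zero_add]
      rw [← e1, ← e2, h1]
    subst h2
    have h3 : ((i : ℕ) : ℤ) = (j : ℕ) := by linarith
    have h4 : i = j := Fin.ext (by exact_mod_cast h3)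
    rw [h4]
  obtain ⟨η, hη1, hη2, hη3, hη4⟩ := exists_eta_rclike (Γ := Γ) (μ := μ) 𝕜 m hm r hr
  have hmp : ∀ g : SL2, MeasurePreserving (fun x : XG Γ => g • x) μ μ := fun g =>
    measurePreserving_smul g μ
  have hval : ∀ (p : Fin r × ℤ) (x : XG Γ),
      η (uni (-(((p.1 : ℕ) : ℝ) / r)) • ((horo Γ ^ p.2) x)) = η (uni ((m p : ℝ) / r) • x) := by
    intro p x
    have e1 : (horo Γ ^ p.2) x = uni (-(p.2 : ℝ)) • x := by
      rw [horo_zpow, smul_def, ← map_inv, ← uni_neg, neg_neg]; rfl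
    rw [e1, smul_smul, ← uni_add]
    congr 3
    simp only [m]
    push_cast
    field_simp
    ring
  refine ⟨fun j x => ((η (uni (-(((j : ℕ) : ℝ) / r)) • x) : ℝ) : 𝕜), fun j => ⟨?_, ?_⟩,
    6, by norm_num, fun J a ε hε => ?_⟩
  · exact ((hmp _).integrable_comp_of_integrable hη2).ofReal
  · intro h0
    have h1 : ∫ x, |η (uni (-(((j : ℕ) : ℝ) / r)) • x)| ∂μ = ∫ x, |η x| ∂μ :=
      integral_comp_mp (T := fun (g : SL2) (x : XG Γ) => g • x) hmp _ (fun x => |η x|)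
        hη2.abs.aestronglyMeasurable
    have h2 : ∫ x, |η (uni (-(((j : ℕ) : ℝ) / r)) • x)| ∂μ = 0 := by
      rw [← integral_zero (XG Γ) ℝ (μ := μ)]
      refine integral_congr_ae ?_
      filter_upwards [h0] with x hx
      have hx' : ((η (uni (-(((j : ℕ) : ℝ) / r)) • x) : ℝ) : 𝕜) = 0 := hx
      rw [RCLike.ofReal_eq_zero] at hx'
      rw [hx', abs_zero]
    linarith
  · have hεn : ∀ i, ‖ε i‖ = 1 := by
      intro i
      rcases hε i with h | h <;> rw [h] <;> simp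
    have h1 := hη4 J a (fun p => ε p * a p) (fun p _ => by rw [norm_mul, hεn, one_mul])
    have h2 := hη4 J (fun p => ε p * a p) a (fun p _ => by rw [norm_mul, hεn, one_mul])
    simp only [hval]
    have e1 : ∀ x, ∑ i ∈ J, a i * ((η (uni ((m i : ℝ) / r) • x) : ℝ) : 𝕜) =
        ∑ i ∈ J, ((η (uni ((m i : ℝ) / r) • x) : ℝ) : 𝕜) * a i := fun x =>
      Finset.sum_congr rfl fun i _ => mul_comm _ _
    have e2 : ∀ x, ∑ i ∈ J, ε i * a i * ((η (uni ((m i : ℝ) / r) • x) : ℝ) : 𝕜) =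
        ∑ i ∈ J, ((η (uni ((m i : ℝ) / r) • x) : ℝ) : 𝕜) * (ε i * a i) := fun x =>
      Finset.sum_congr rfl fun i _ => mul_comm _ _
    simp only [e1, e2]
    constructor
    · rw [inv_mul_le_iff₀ (by norm_num)]
      exact h1
    · exact h2

end Pool.Agent.Horo
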