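import Pool.Agent.Lib.MP_cea16d_an.Multi

/-!
# The limit function and unconditionality
-/

set_option linter.unusedSectionVars false

noncomputable section

namespace Pool.Agent.Horo

open Filter Topology MeasureTheory
open scoped RealInnerProductSpace

/-- Nested sets of the largest values. -/
lemma exists_chain {I : Type*} (F : Finset I) (ρ : I → ℝ) :
    ∃ H : ℕ → Finset I, (∀ k, H k ⊆ H (k + 1)) ∧ (∀ k, H k ⊆ F) ∧
      (∀ k, (H k).card = min k F.card) ∧
      (∀ k, ∀ α ∈ F, α ∉ H k → ∀ β ∈ H k, ρ α ≤ ρ β) := by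
  classical
  induction F using Finset.induction_on_max_value ρ with
  | empty =>
    exact ⟨fun _ => ∅, fun k => Finset.Subset.refl _, fun k => Finset.Subset.refl _,
      fun k => by simp, fun k α hα => absurd hα (Finset.notMem_empty α)⟩
  | insert a s has hmax ih =>
    obtain ⟨H, h1, h2, h3, h4⟩ := ih
    refine ⟨fun k => Nat.casesOn k ∅ fun k => insert a (H k), ?_, ?_, ?_, ?_⟩
    · intro k
      cases k with
      | zero => exact Finset.empty_subset _
      | succ k => exact Finset.insert_subset_insert _ (h1 k)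
    · intro k
      cases k with
      | zero => exact Finset.empty_subset _
      | succ k => exact Finset.insert_subset_insert _ (h2 k)
    · intro k
      cases k with
      | zero => simp
      | succ k =>
        have : a ∉ H k := fun h => has (h2 k h)
        show (insert a (H k)).card = _
        rw [Finset.card_insert_of_notMem this, Finset.card_insert_of_notMem has, h3 k]
        omega
    · intro k α hα hαk β hβ
      cases k with
      | zero => exact absurd hβ (Finset.notMem_empty β)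
      | succ k =>
        have hαk' : α ∉ insert a (H k) := hαk
        have hβ' : β ∈ insert a (H k) := hβ
        rw [Finset.mem_insert, not_or] at hαk'
        have hαs : α ∈ s := (Finset.mem_insert.1 hα).resolve_left hαk'.1
        rcases Finset.mem_insert.1 hβ' with h | h
        · rw [h]; exact hmax α hαs
        · exact h4 k α hαs hαk'.2 β h

section

variable {X : Type*} [MeasurableSpace X] {μ : Measure X} [IsProbabilityMeasure μ]
  {I : Type*} {T : I → X → X} {V : Type*} [NormedAddCommGroup V] [InnerProductSpace ℝ V]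
  (D : MData μ T V) (hT : ∀ α, MeasurePreserving (T α) μ μ)

/-- Partial sums of the function. -/
def MData.eta (J : ℕ) (x : X) : ℝ := ∑ j ∈ Finset.range J, ct j * gf μ (D.E j) x

include hT in
lemma MData.two_sided (F : Finset I) (a : I → V) (G : ℕ → Finset I)
    (g1 : ∀ j, G j ⊆ G (j + 1)) (g3 : ∀ j, (G j).card ≤ D.N j)
    (g4 : ∀ j, ∀ α ∈ G (j + 1), α ∉ G j → ‖a α‖ * D.N j ≤ ∑ β ∈ G j, ‖a β‖)
    (n : ℕ) (hn : G n = F) :
    (1 / 2) * Lam (fun j => ∑ α ∈ G j, ‖a α‖) (n + 1) - wt (n + 1) * ∑ α ∈ F, ‖a α‖ ≤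
      ∫ x, ‖∑ α ∈ F, D.eta (n + 1) (T α x) • a α‖ ∂μ ∧
    ∫ x, ‖∑ α ∈ F, D.eta (n + 1) (T α x) • a α‖ ∂μ ≤
      3 * Lam (fun j => ∑ α ∈ G j, ‖a α‖) (n + 1) + wt (n + 1) * ∑ α ∈ F, ‖a α‖ := by
  have e1 : ∀ x, ∑ α ∈ F, D.eta (n + 1) (T α x) • a α =
      ∑ j ∈ Finset.range (n + 1), ct j • D.P G a j j x +
      ∑ j ∈ Finset.range (n + 1), ct j • (D.P G a j n x - D.P G a j j x) := by
    intro x
    rw [← Finset.sum_add_distrib]
    have : ∀ j, ct j • D.P G a j j x + ct j • (D.P G a j n x - D.P G a j j x) =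
        ct j • D.P G a j n x := by
      intro j; rw [smul_sub]; abel
    simp only [this]
    unfold MData.eta MData.P
    rw [hn]
    simp only [Finset.sum_smul, Finset.smul_sum]
    rw [Finset.sum_comm]
    refine Finset.sum_congr rfl fun j _ => Finset.sum_congr rfl fun α _ => ?_
    rw [mul_smul]
  have i1 : Integrable (fun x => ∑ j ∈ Finset.range (n + 1), ct j • D.P G a j j x) μ :=
    integrable_finsetSum _ fun j _ => (D.integrable_P hT G a j j).smul (ct j)
  have i2 : Integrable (fun x => ∑ j ∈ Finset.range (n + 1),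
      ct j • (D.P G a j n x - D.P G a j j x)) μ :=
    integrable_finsetSum _ fun j _ =>
      ((D.integrable_P hT G a j n).sub (D.integrable_P hT G a j j)).smul (ct j)
  have h1 := D.lower_diag hT G a g3 (n + 1)
  have h2 := D.upper_diag hT G a (n + 1)
  have h3 := D.error hT G a g1 g4 n
  rw [hn] at h3
  have hL0 : 0 ≤ Lam (fun j => ∑ α ∈ G j, ‖a α‖) (n + 1) :=
    Finset.sum_nonneg fun k _ => mul_nonneg (ct_pos k).le
      (Finset.sum_nonneg fun _ _ => norm_nonneg _)
  simp only [e1]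
  constructor
  · have h4 : ∫ x, (‖∑ j ∈ Finset.range (n + 1), ct j • D.P G a j j x‖ -
        ‖∑ j ∈ Finset.range (n + 1), ct j • (D.P G a j n x - D.P G a j j x)‖) ∂μ ≤
        ∫ x, ‖∑ j ∈ Finset.range (n + 1), ct j • D.P G a j j x +
          ∑ j ∈ Finset.range (n + 1), ct j • (D.P G a j n x - D.P G a j j x)‖ ∂μ := by
      refine integral_mono (i1.norm.sub i2.norm) (i1.add i2).norm fun x => ?_
      have := norm_sub_norm_le (∑ j ∈ Finset.range (n + 1), ct j • D.P G a j j x)
        (-(∑ j ∈ Finset.range (n + 1), ct j • (D.P G a j n x - D.P G a j j x)))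
      rw [norm_neg, sub_neg_eq_add] at this
      exact this
    rw [integral_sub i1.norm i2.norm] at h4
    linarith
  · have h4 : ∫ x, ‖∑ j ∈ Finset.range (n + 1), ct j • D.P G a j j x +
          ∑ j ∈ Finset.range (n + 1), ct j • (D.P G a j n x - D.P G a j j x)‖ ∂μ ≤
        ∫ x, (‖∑ j ∈ Finset.range (n + 1), ct j • D.P G a j j x‖ +
        ‖∑ j ∈ Finset.range (n + 1), ct j • (D.P G a j n x - D.P G a j j x)‖) ∂μ := by
      refine integral_mono (i1.add i2).norm (i1.norm.add i2.norm) fun x => norm_add_le _ _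
    rw [integral_add i1.norm i2.norm] at h4
    linarith

include hT in
/-- Comparison for the partial sums. -/
lemma MData.compare (F : Finset I) (a b : I → V) (hab : ∀ α ∈ F, ‖a α‖ = ‖b α‖) (n : ℕ)
    (hn : F.card ≤ n) :
    ∫ x, ‖∑ α ∈ F, D.eta (n + 1) (T α x) • a α‖ ∂μ ≤
      6 * ∫ x, ‖∑ α ∈ F, D.eta (n + 1) (T α x) • b α‖ ∂μ +
        7 * (wt (n + 1) * ∑ α ∈ F, ‖a α‖) := by
  obtain ⟨H, h1, h2, h3, h4⟩ := exists_chain F fun α => ‖a α‖
  have hmono : Monotone H := monotone_nat_of_le_succ h1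
  let G : ℕ → Finset I := fun j => H (D.N j)
  have g1 : ∀ j, G j ⊆ G (j + 1) := fun j => hmono (D.Nmono (Nat.le_succ j))
  have g2 : ∀ j, G j ⊆ F := fun j => h2 _
  have g3 : ∀ j, (G j).card ≤ D.N j := fun j => by
    show (H (D.N j)).card ≤ D.N j
    rw [h3]; exact min_le_left _ _
  have g4 : ∀ j, ∀ α ∈ G (j + 1), α ∉ G j → ‖a α‖ * D.N j ≤ ∑ β ∈ G j, ‖a β‖ := by
    intro j α hα hα'
    have hαF : α ∈ F := g2 _ hα
    have hlt : (G j).card < F.card := by
      refine Finset.card_lt_card ⟨g2 j, fun hsub => hα' (hsub hαF)⟩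
    have hcard : (G j).card = D.N j := by
      have : (G j).card = min (D.N j) F.card := h3 _
      omega
    have h5 : ∀ β ∈ G j, ‖a α‖ ≤ ‖a β‖ := fun β hβ => h4 (D.N j) α hαF hα' β hβ
    have h6 := Finset.card_nsmul_le_sum (G j) (fun β => ‖a β‖) ‖a α‖ h5
    rw [nsmul_eq_mul, hcard, mul_comm] at h6
    exact h6
  have g5 : G n = F := by
    refine Finset.eq_of_subset_of_card_le (g2 n) ?_
    have : (G n).card = min (D.N n) F.card := h3 _
    have := D.Nge n
    omega
  have hsum : ∀ j, ∑ α ∈ G j, ‖b α‖ = ∑ α ∈ G j, ‖a α‖ := fun j =>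
    Finset.sum_congr rfl fun α hα => (hab α (g2 j hα)).symm
  have g4' : ∀ j, ∀ α ∈ G (j + 1), α ∉ G j → ‖b α‖ * D.N j ≤ ∑ β ∈ G j, ‖b β‖ := by
    intro j α hα hα'
    rw [hsum, ← hab α (g2 _ hα)]
    exact g4 j α hα hα'
  have ha := (D.two_sided hT F a G g1 g3 g4 n g5).2
  have hb := (D.two_sided hT F b G g1 g3 g4' n g5).1
  have hsumF : ∑ α ∈ F, ‖b α‖ = ∑ α ∈ F, ‖a α‖ :=
    Finset.sum_congr rfl fun α hα => (hab α hα).symm
  simp only [hsum, hsumF] at hb
  linarith

include hT in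
/-- Lower bound for a single translate. -/
lemma MData.single_lower (α : I) (v : V) (n : ℕ) (hn : 1 ≤ n) :
    (1 / 2) * (ct 0 * ‖v‖) - wt (n + 1) * ‖v‖ ≤
      ∫ x, ‖D.eta (n + 1) (T α x) • v‖ ∂μ := by
  classical
  have h := (D.two_sided hT {α} (fun _ => v) (fun _ => {α}) (fun j => Finset.Subset.refl _)
    (fun j => by simpa using D.N1 j) (fun j β hβ hβ' => absurd hβ hβ') n rfl).1
  simp only [Finset.sum_singleton] at h
  have h2 : ct 0 * ‖v‖ ≤ Lam (fun _ => ‖v‖) (n + 1) := by
    unfold Lam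
    refine Finset.single_le_sum (f := fun j => ct j * ‖v‖)
      (fun j _ => mul_nonneg (ct_pos j).le (norm_nonneg v)) ?_
    simp
  linarith

end

/-- `L¹` limits of absolutely summable series. -/
lemma exists_l1_limit {X : Type*} [MeasurableSpace X] (μ : Measure X) (f : ℕ → X → ℝ)
    (hf : ∀ j, Integrable (f j) μ) (C : ℕ → ℝ) (hC : Summable C) (hfC : ∀ j, ∫ x, |f j x| ∂μ ≤ C j) :
    ∃ η : X → ℝ, StronglyMeasurable η ∧ Integrable η μ ∧
      Tendsto (fun J => ∫ x, |η x - ∑ j ∈ Finset.range J, f j x| ∂μ) atTop (𝓝 0) := by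
  let Fj : ℕ → (X →₁[μ] ℝ) := fun j => (hf j).toL1 (f j)
  have hnorm : ∀ j, ‖Fj j‖ ≤ C j := by
    intro j
    refine le_trans (le_of_eq ?_) (hfC j)
    rw [L1.norm_eq_integral_norm]
    refine integral_congr_ae ?_
    filter_upwards [(hf j).coeFn_toL1] with x hx
    rw [hx, Real.norm_eq_abs]
  have hsum : Summable Fj := Summable.of_norm_bounded hC hnorm
  refine ⟨fun x => (∑' j, Fj j : X →₁[μ] ℝ) x, Lp.stronglyMeasurable _,
    L1.integrable_coeFn _, ?_⟩
  have htend := hsum.hasSum.tendsto_sum_nat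
  have h1 : Tendsto (fun J => ‖(∑' j, Fj j) - ∑ j ∈ Finset.range J, Fj j‖) atTop (𝓝 0) := by
    have h2 : Tendsto (fun J => (∑' j, Fj j) - ∑ j ∈ Finset.range J, Fj j) atTop
        (𝓝 ((∑' j, Fj j) - ∑' j, Fj j)) := tendsto_const_nhds.sub htend
    rw [sub_self] at h2
    simpa using h2.norm
  refine h1.congr fun J => ?_
  rw [L1.norm_eq_integral_norm]
  refine integral_congr_ae ?_
  have hJ : ∀ J : ℕ, (∑ j ∈ Finset.range J, Fj j : X →₁[μ] ℝ) =ᵐ[μ]
      fun x => ∑ j ∈ Finset.range J, f j x := by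
    intro J
    induction J with
    | zero =>
      simp only [Finset.range_zero, Finset.sum_empty]
      filter_upwards [Lp.coeFn_zero ℝ 1 μ] with x hx
      rw [hx]; rfl
    | succ J ih =>
      rw [Finset.sum_range_succ]
      filter_upwards [Lp.coeFn_add (∑ j ∈ Finset.range J, Fj j) (Fj J), ih,
        (hf J).coeFn_toL1] with x h1 h2 h3
      rw [h1, Pi.add_apply, h2, h3, Finset.sum_range_succ]
  filter_upwards [Lp.coeFn_sub (∑' j, Fj j) (∑ j ∈ Finset.range J, Fj j), hJ J] with x h3 h4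
  rw [h3, Pi.sub_apply, h4, Real.norm_eq_abs]

section

variable {X : Type*} [MeasurableSpace X] {μ : Measure X} [IsProbabilityMeasure μ]
  {I : Type*} {T : I → X → X} {V : Type*} [NormedAddCommGroup V] [InnerProductSpace ℝ V]

lemma integral_comp_mp (hT : ∀ α, MeasurePreserving (T α) μ μ) (α : I) (g : X → ℝ)
    (hg : AEStronglyMeasurable g μ) : ∫ x, g (T α x) ∂μ = ∫ x, g x ∂μ := by
  have hmap := (hT α).map_eq
  have hg' : AEStronglyMeasurable g (Measure.map (T α) μ) := by rw [hmap]; exact hg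
  have := integral_map (hT α).measurable.aemeasurable hg'
  rw [hmap] at this
  exact this.symm

/-- **Unconditionality of the limit function.** -/
theorem MData.exists_eta [Nonempty I] [Nontrivial V] (D : MData μ T V)
    (hT : ∀ α, MeasurePreserving (T α) μ μ) :
    ∃ η : X → ℝ, StronglyMeasurable η ∧ Integrable η μ ∧ 0 < ∫ x, |η x| ∂μ ∧
      ∀ (F : Finset I) (a b : I → V), (∀ α ∈ F, ‖a α‖ = ‖b α‖) →
        ∫ x, ‖∑ α ∈ F, η (T α x) • a α‖ ∂μ ≤ 6 * ∫ x, ‖∑ α ∈ F, η (T α x) • b α‖ ∂μ := by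
  have hmp : ∀ _u : Unit, MeasurePreserving (id : X → X) μ μ := fun _ => MeasurePreserving.id μ
  have hf : ∀ j, Integrable (fun x => ct j * gf μ (D.E j) x) μ := fun j =>
    (integrable_gf_comp (T := fun (_ : Unit) (x : X) => x) (D.meas j) hmp ()).const_mul _
  have hC : ∀ j, ∫ x, |ct j * gf μ (D.E j) x| ∂μ ≤ 2 * ct j := by
    intro j
    have h1 := integral_abs_gf_comp (T := fun (_ : Unit) (x : X) => x) (D.meas j) (D.pos j) hmp ()
    simp only [abs_mul, abs_of_pos (ct_pos j)]
    rw [integral_const_mul, mul_comm 2]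
    exact mul_le_mul_of_nonneg_left h1 (ct_pos j).le
  obtain ⟨η, hη1, hη2, hη3⟩ := exists_l1_limit μ _ hf (fun j => 2 * ct j)
    (summable_ct.mul_left 2) hC
  have hetaint : ∀ J, Integrable (D.eta J) μ := fun J => integrable_finsetSum _ fun j _ => hf j
  have hη3' : Tendsto (fun J => ∫ x, |η x - D.eta J x| ∂μ) atTop (𝓝 0) := hη3
  -- convergence of the norms
  have hconv : ∀ (F : Finset I) (a : I → V),
      Tendsto (fun J => ∫ x, ‖∑ α ∈ F, D.eta J (T α x) • a α‖ ∂μ) atTop
        (𝓝 (∫ x, ‖∑ α ∈ F, η (T α x) • a α‖ ∂μ)) := by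
    intro F a
    have icomp : ∀ (g : X → ℝ), Integrable g μ → ∀ α, Integrable (fun x => g (T α x)) μ :=
      fun g hg α => (hT α).integrable_comp_of_integrable hg
    have i1 : Integrable (fun x => ∑ α ∈ F, η (T α x) • a α) μ :=
      integrable_finsetSum _ fun α _ => (icomp η hη2 α).smul_const (a α)
    have i2 : ∀ J, Integrable (fun x => ∑ α ∈ F, D.eta J (T α x) • a α) μ := fun J =>
      integrable_finsetSum _ fun α _ => (icomp _ (hetaint J) α).smul_const (a α)
    have hb : ∀ J, |∫ x, ‖∑ α ∈ F, D.eta J (T α x) • a α‖ ∂μ -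
        ∫ x, ‖∑ α ∈ F, η (T α x) • a α‖ ∂μ| ≤
        (∑ α ∈ F, ‖a α‖) * ∫ x, |η x - D.eta J x| ∂μ := by
      intro J
      rw [← integral_sub (i2 J).norm i1.norm]
      refine (abs_integral_le_integral_abs).trans ?_
      have hi3 : ∀ α ∈ F, Integrable (fun x => |η (T α x) - D.eta J (T α x)| * ‖a α‖) μ :=
        fun α _ => ((icomp η hη2 α).sub (icomp _ (hetaint J) α)).abs.mul_const _
      have hpt : ∀ x, |‖∑ α ∈ F, D.eta J (T α x) • a α‖ - ‖∑ α ∈ F, η (T α x) • a α‖| ≤
          ∑ α ∈ F, |η (T α x) - D.eta J (T α x)| * ‖a α‖ := by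
        intro x
        refine (abs_norm_sub_norm_le _ _).trans ?_
        rw [← Finset.sum_sub_distrib]
        refine (norm_sum_le _ _).trans (le_of_eq (Finset.sum_congr rfl fun α _ => ?_))
        rw [← sub_smul, norm_smul, Real.norm_eq_abs, abs_sub_comm]
      refine (integral_mono ((i2 J).norm.sub i1.norm).abs (integrable_finsetSum _ hi3) hpt).trans ?_
      rw [integral_finsetSum _ hi3, Finset.sum_mul]
      refine le_of_eq (Finset.sum_congr rfl fun α _ => ?_)
      rw [integral_mul_const, mul_comm]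
      congr 1
      exact integral_comp_mp hT α (fun x => |η x - D.eta J x|)
        (hη2.sub (hetaint J)).abs.aestronglyMeasurable
    rw [tendsto_iff_norm_sub_tendsto_zero]
    refine squeeze_zero (fun J => norm_nonneg _) (fun J => hb J) ?_
    simpa using hη3'.const_mul (∑ α ∈ F, ‖a α‖)
  refine ⟨η, hη1, hη2, ?_, ?_⟩
  · obtain ⟨α⟩ := ‹Nonempty I›
    obtain ⟨v, hv⟩ := exists_ne (0 : V)
    have h1 := (hconv {α} fun _ => v).comp (tendsto_add_atTop_nat 1)
    simp only [Finset.sum_singleton, Function.comp_def] at h1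
    have h2 : Tendsto (fun n => (1 / 2) * (ct 0 * ‖v‖) - wt (n + 1) * ‖v‖) atTop
        (𝓝 ((1 / 2) * (ct 0 * ‖v‖) - 0 * ‖v‖)) :=
      tendsto_const_nhds.sub (((tendsto_add_atTop_iff_nat 1).2 tendsto_wt).mul_const _)
    have h3 := le_of_tendsto_of_tendsto h2 h1 (by
      filter_upwards [eventually_ge_atTop 1] with n hn
      exact D.single_lower hT α v n hn)
    have h4 : 0 < ‖v‖ := norm_pos_iff.2 hv
    have h5 := ct_pos 0
    have h6 : 0 < ∫ x, ‖η (T α x) • v‖ ∂μ := by
      refine lt_of_lt_of_le ?_ h3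
      have := mul_pos h5 h4
      linarith
    simp only [norm_smul, Real.norm_eq_abs] at h6
    rw [integral_mul_const, integral_comp_mp hT α (fun x => |η x|)
      hη2.abs.aestronglyMeasurable] at h6
    exact pos_of_mul_pos_left h6 h4.le
  · intro F a b hab
    have h1 := (hconv F a).comp (tendsto_add_atTop_nat 1)
    have h2 := (hconv F b).comp (tendsto_add_atTop_nat 1)
    have h3 : Tendsto (fun n => 7 * (wt (n + 1) * ∑ α ∈ F, ‖a α‖)) atTop (𝓝 (7 * (0 * ∑ α ∈ F, ‖a α‖))) :=
      (((tendsto_add_atTop_iff_nat 1).2 tendsto_wt).mul_const _).const_mul _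
    have h4 := (h2.const_mul 6).add h3
    simp only [Function.comp_def] at h1 h4
    have h5 := le_of_tendsto_of_tendsto h1 h4 (by
      filter_upwards [eventually_ge_atTop F.card] with n hn
      exact D.compare hT F a b hab n hn)
    simpa using h5

end

end Pool.Agent.Horo
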