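import Mathlib

/-!
# Mautner phenomenon and mixing of the horocycle subgroup for `SL(2,ℝ)`
(used for MP_cea16d_an)
-/

noncomputable section

namespace Pool.Agent.Horo

open Matrix Filter Topology
open scoped RealInnerProductSpace

/-- `SL(2,ℝ)`. -/
abbrev SL2 := Matrix.SpecialLinearGroup (Fin 2) ℝ

/-- The upper unipotent matrix. -/
def uni (t : ℝ) : SL2 := ⟨!![1, t; 0, 1], by simp [Matrix.det_fin_two_of]⟩

/-- The lower unipotent matrix. -/
def low (t : ℝ) : SL2 := ⟨!![1, 0; t, 1], by simp [Matrix.det_fin_two_of]⟩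

/-- The diagonal matrix `diag(e^s, e^{-s})`. -/
def dia (s : ℝ) : SL2 := ⟨!![Real.exp s, 0; 0, Real.exp (-s)], by
  rw [Matrix.det_fin_two_of, ← Real.exp_add]; simp⟩

lemma continuous_uni : Continuous uni := by
  refine Continuous.subtype_mk ?_ _
  refine continuous_matrix fun i j ↦ ?_
  fin_cases i <;> fin_cases j <;> simp [continuous_const, continuous_id']

lemma continuous_low : Continuous low := by
  refine Continuous.subtype_mk ?_ _
  refine continuous_matrix fun i j ↦ ?_
  fin_cases i <;> fin_cases j <;> simp [continuous_const, continuous_id']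

lemma continuous_dia : Continuous dia := by
  refine Continuous.subtype_mk ?_ _
  refine continuous_matrix fun i j ↦ ?_
  fin_cases i <;> fin_cases j <;> simp [continuous_const, Real.continuous_exp]
  all_goals fun_prop

lemma coe_uni (t : ℝ) : ((uni t : SL2) : Matrix (Fin 2) (Fin 2) ℝ) = !![1, t; 0, 1] := rfl

lemma coe_low (t : ℝ) : ((low t : SL2) : Matrix (Fin 2) (Fin 2) ℝ) = !![1, 0; t, 1] := rfl

lemma coe_dia (s : ℝ) : ((dia s : SL2) : Matrix (Fin 2) (Fin 2) ℝ) =
    !![Real.exp s, 0; 0, Real.exp (-s)] := rfl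

lemma sl2_ext (g h : SL2) (h00 : g 0 0 = h 0 0) (h01 : g 0 1 = h 0 1) (h10 : g 1 0 = h 1 0)
    (h11 : g 1 1 = h 1 1) : g = h := by
  refine Matrix.SpecialLinearGroup.ext g h fun i j => ?_
  fin_cases i <;> fin_cases j
  · exact h00
  · exact h01
  · exact h10
  · exact h11

lemma mul00 (g h : SL2) : (g * h) 0 0 = g 0 0 * h 0 0 + g 0 1 * h 1 0 := by
  rw [Matrix.SpecialLinearGroup.coe_mul, Matrix.mul_apply, Fin.sum_univ_two]

lemma mul01 (g h : SL2) : (g * h) 0 1 = g 0 0 * h 0 1 + g 0 1 * h 1 1 := by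
  rw [Matrix.SpecialLinearGroup.coe_mul, Matrix.mul_apply, Fin.sum_univ_two]

lemma mul10 (g h : SL2) : (g * h) 1 0 = g 1 0 * h 0 0 + g 1 1 * h 1 0 := by
  rw [Matrix.SpecialLinearGroup.coe_mul, Matrix.mul_apply, Fin.sum_univ_two]

lemma mul11 (g h : SL2) : (g * h) 1 1 = g 1 0 * h 0 1 + g 1 1 * h 1 1 := by
  rw [Matrix.SpecialLinearGroup.coe_mul, Matrix.mul_apply, Fin.sum_univ_two]

@[simp] lemma uni00 (t : ℝ) : (uni t) 0 0 = 1 := rfl
@[simp] lemma uni01 (t : ℝ) : (uni t) 0 1 = t := rfl
@[simp] lemma uni10 (t : ℝ) : (uni t) 1 0 = 0 := rfl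
@[simp] lemma uni11 (t : ℝ) : (uni t) 1 1 = 1 := rfl
@[simp] lemma low00 (t : ℝ) : (low t) 0 0 = 1 := rfl
@[simp] lemma low01 (t : ℝ) : (low t) 0 1 = 0 := rfl
@[simp] lemma low10 (t : ℝ) : (low t) 1 0 = t := rfl
@[simp] lemma low11 (t : ℝ) : (low t) 1 1 = 1 := rfl
@[simp] lemma dia00 (t : ℝ) : (dia t) 0 0 = Real.exp t := rfl
@[simp] lemma dia01 (t : ℝ) : (dia t) 0 1 = 0 := rfl
@[simp] lemma dia10 (t : ℝ) : (dia t) 1 0 = 0 := rfl
@[simp] lemma dia11 (t : ℝ) : (dia t) 1 1 = Real.exp (-t) := rfl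

@[simp] lemma one00 : (1 : SL2) 0 0 = 1 := by simp
@[simp] lemma one01 : (1 : SL2) 0 1 = 0 := by simp
@[simp] lemma one10 : (1 : SL2) 1 0 = 0 := by simp
@[simp] lemma one11 : (1 : SL2) 1 1 = 1 := by simp

lemma uni_zero : uni 0 = 1 := by
  apply sl2_ext <;> simp only [uni00, uni01, uni10, uni11, one00, one01, one10, one11]

lemma low_zero : low 0 = 1 := by
  apply sl2_ext <;> simp only [low00, low01, low10, low11, one00, one01, one10, one11]

lemma dia_zero : dia 0 = 1 := by
  apply sl2_ext <;>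
    simp only [dia00, dia01, dia10, dia11, one00, one01, one10, one11, neg_zero, Real.exp_zero]

lemma uni_add (s t : ℝ) : uni (s + t) = uni s * uni t := by
  apply sl2_ext <;> simp only [mul00, mul01, mul10, mul11, uni00, uni01, uni10, uni11] <;> ring

lemma low_add (s t : ℝ) : low (s + t) = low s * low t := by
  apply sl2_ext <;> simp only [mul00, mul01, mul10, mul11, low00, low01, low10, low11] <;> ring

lemma dia_add (s t : ℝ) : dia (s + t) = dia s * dia t := by
  apply sl2_ext <;> simp only [mul00, mul01, mul10, mul11, dia00, dia01, dia10, dia11,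
    neg_add, Real.exp_add] <;> ring

lemma uni_neg (t : ℝ) : uni (-t) = (uni t)⁻¹ := by
  rw [eq_inv_iff_mul_eq_one, ← uni_add, neg_add_cancel, uni_zero]

lemma low_neg (t : ℝ) : low (-t) = (low t)⁻¹ := by
  rw [eq_inv_iff_mul_eq_one, ← low_add, neg_add_cancel, low_zero]

lemma dia_neg (t : ℝ) : dia (-t) = (dia t)⁻¹ := by
  rw [eq_inv_iff_mul_eq_one, ← dia_add, neg_add_cancel, dia_zero]

/-- `a_s n(t) a_{-s} = n(e^{2s} t)`. -/
lemma dia_uni_dia (s t : ℝ) : dia s * uni t * dia (-s) = uni (Real.exp (2 * s) * t) := by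
  have h : Real.exp s * Real.exp (-s) = 1 := by rw [← Real.exp_add]; simp
  apply sl2_ext <;> simp only [mul00, mul01, mul10, mul11, dia00, dia01, dia10, dia11, uni00,
    uni01, uni10, uni11, neg_neg, two_mul, Real.exp_add]
  · linear_combination h
  · ring
  · ring
  · linear_combination h

/-- `a_s n⁻(t) a_{-s} = n⁻(e^{-2s} t)`. -/
lemma dia_low_dia (s t : ℝ) : dia s * low t * dia (-s) = low (Real.exp (-(2 * s)) * t) := by
  have h : Real.exp s * Real.exp (-s) = 1 := by rw [← Real.exp_add]; simp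
  apply sl2_ext <;> simp only [mul00, mul01, mul10, mul11, dia00, dia01, dia10, dia11, low00,
    low01, low10, low11, neg_neg, two_mul, Real.exp_add, neg_add]
  · linear_combination h
  · ring
  · ring
  · linear_combination h

/-- Two matrices with the same nonzero lower left entry are in the same double coset of `N`. -/
lemma exists_double_coset (g h : SL2) (hc : g 1 0 ≠ 0) (hgh : g 1 0 = h 1 0) :
    ∃ x y : ℝ, uni x * g * uni y = h := by
  refine ⟨(h 0 0 - g 0 0) / g 1 0, (h 1 1 - g 1 1) / g 1 0, ?_⟩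
  have hg : g 0 0 * g 1 1 - g 0 1 * g 1 0 = 1 := by
    rw [← Matrix.det_fin_two]; exact g.det_coe
  have hh : h 0 0 * h 1 1 - h 0 1 * h 1 0 = 1 := by
    rw [← Matrix.det_fin_two]; exact h.det_coe
  apply sl2_ext <;> simp only [mul00, mul01, mul10, mul11, uni00, uni01, uni10, uni11]
  · field_simp; ring
  · field_simp
    rw [← hgh] at hh
    linear_combination hh - hg
  · rw [← hgh]; ring
  · field_simp; ring

section Hilbert

variable {H : Type*} [NormedAddCommGroup H] [InnerProductSpace ℝ H]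

/-- A strongly continuous isometric representation of `SL(2,ℝ)`. -/
structure Rep (H : Type*) [NormedAddCommGroup H] [InnerProductSpace ℝ H] where
  /-- the operators -/
  op : SL2 → (H →ₗᵢ[ℝ] H)
  map_one : ∀ v, op 1 v = v
  map_mul : ∀ g h v, op (g * h) v = op g (op h v)
  cont : ∀ v, Continuous fun g => op g v

variable (π : Rep H)

lemma Rep.inner_op (g : SL2) (u v : H) : ⟪π.op g u, v⟫ = ⟪u, π.op g⁻¹ v⟫ := by
  have h : v = π.op g (π.op g⁻¹ v) := by
    rw [← π.map_mul, mul_inv_cancel, π.map_one]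
  conv_lhs => rw [h]
  rw [LinearIsometry.inner_map_map]

lemma Rep.eq_of_inner (g : SL2) (w : H) (h : ⟪π.op g w, w⟫ = ‖w‖ ^ 2) : π.op g w = w := by
  have h1 : ‖π.op g w - w‖ ^ 2 = 0 := by
    rw [@norm_sub_sq_real, h, LinearIsometry.norm_map]; ring
  have h2 : ‖π.op g w - w‖ = 0 := by
    exact pow_eq_zero_iff (two_ne_zero) |>.1 h1
  exact sub_eq_zero.1 (norm_eq_zero.1 h2)

/-- **Mautner phenomenon**: `N`-invariant vectors are `SL(2,ℝ)`-invariant. -/
theorem Rep.mautner (w : H) (hw : ∀ t, π.op (uni t) w = w) : ∀ g, π.op g w = w := by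
  have hbi : ∀ x y g, ⟪π.op (uni x * g * uni y) w, w⟫ = ⟪π.op g w, w⟫ := by
    intro x y g
    rw [π.map_mul, π.map_mul, hw y]
    conv_lhs => rw [π.inner_op, ← uni_neg, hw]
  have hdc : ∀ g h : SL2, g 1 0 ≠ 0 → g 1 0 = h 1 0 → ⟪π.op g w, w⟫ = ⟪π.op h w, w⟫ := by
    intro g h hc hgh
    obtain ⟨x, y, hxy⟩ := exists_double_coset g h hc hgh
    rw [← hxy, hbi]
  have hcont : Continuous fun g => ⟪π.op g w, w⟫ := (π.cont w).inner continuous_const
  have h1 : ⟪π.op 1 w, w⟫ = ‖w‖ ^ 2 := by
    rw [π.map_one, real_inner_self_eq_norm_sq]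
  -- the limit `c → 0`
  have hlow : Tendsto (fun c : ℝ => ⟪π.op (low c) w, w⟫) (𝓝[≠] 0) (𝓝 (‖w‖ ^ 2)) := by
    have := (hcont.comp continuous_low).tendsto 0
    simp only [Function.comp_def, low_zero, h1] at this
    exact this.mono_left nhdsWithin_le_nhds
  have hdia : ∀ s, π.op (dia s) w = w := by
    intro s
    apply π.eq_of_inner
    have hA : Tendsto (fun c : ℝ => ⟪π.op (dia s * low (Real.exp s * c)) w, w⟫) (𝓝[≠] 0)
        (𝓝 ⟪π.op (dia s) w, w⟫) := by
      have hc : Continuous fun c : ℝ => dia s * low (Real.exp s * c) :=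
        continuous_const.mul (continuous_low.comp (continuous_const.mul continuous_id))
      have := (hcont.comp hc).tendsto 0
      simp only [Function.comp_def, mul_zero, low_zero, mul_one] at this
      exact this.mono_left nhdsWithin_le_nhds
    have hB : Tendsto (fun c : ℝ => ⟪π.op (dia s * low (Real.exp s * c)) w, w⟫) (𝓝[≠] 0)
        (𝓝 (‖w‖ ^ 2)) := by
      refine hlow.congr' ?_
      filter_upwards [self_mem_nhdsWithin] with c hc
      have hc' : c ≠ 0 := hc
      have e1 : (low c) 1 0 = c := low10 c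
      have e2 : (dia s * low (Real.exp s * c)) 1 0 = c := by
        rw [mul10, dia10, dia11, low00, low10, ← mul_assoc, ← Real.exp_add]; simp
      exact hdc _ _ (by rw [e1]; exact hc') (by rw [e1, e2])
    exact tendsto_nhds_unique hA hB
  have hlowinv : ∀ c, π.op (low c) w = w := by
    intro c
    apply π.eq_of_inner
    have hA : Tendsto (fun s : ℝ => ⟪π.op (low (Real.exp (-(2 * s)) * c)) w, w⟫) atTop
        (𝓝 (‖w‖ ^ 2)) := by
      have h2 : Tendsto (fun s : ℝ => Real.exp (-(2 * s)) * c) atTop (𝓝 0) := by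
        have h3 : Tendsto (fun s : ℝ => -(2 * s)) atTop atBot := by
          apply tendsto_neg_atTop_atBot.comp
          exact tendsto_id.const_mul_atTop (by norm_num)
        have h4 := (Real.tendsto_exp_atBot.comp h3).mul_const c
        simpa using h4
      have h5 := ((hcont.comp continuous_low).tendsto 0).comp h2
      simpa only [Function.comp_def, low_zero, h1] using h5
    have hB : ∀ s, ⟪π.op (low (Real.exp (-(2 * s)) * c)) w, w⟫ = ⟪π.op (low c) w, w⟫ := by
      intro s
      rw [← dia_low_dia, π.map_mul, π.map_mul, hdia, π.inner_op, ← dia_neg, hdia]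
    simp only [hB] at hA
    exact tendsto_nhds_unique tendsto_const_nhds hA
  have hne : ∀ g : SL2, g 1 0 ≠ 0 → π.op g w = w := by
    intro g hg
    apply π.eq_of_inner
    have e1 : (low (g 1 0)) 1 0 = g 1 0 := low10 _
    rw [hdc g (low (g 1 0)) hg e1.symm, hlowinv, real_inner_self_eq_norm_sq]
  intro g
  by_cases hg : g 1 0 = 0
  · have hd : g 1 1 ≠ 0 := by
      intro h
      have := g.det_coe
      rw [Matrix.det_fin_two, hg, h] at this
      simp at this
    have h2 : (g * low 1) 1 0 ≠ 0 := by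
      rw [mul10, hg, low10, low00]
      simpa using hd
    have h3 := hne _ h2
    rw [π.map_mul, hlowinv] at h3
    exact h3
  · exact hne g hg

/-- **Mixing of the horocycle subgroup** (Howe-Moore for `N`): matrix coefficients against
vectors orthogonal to the invariant vectors tend to `0`. -/
theorem Rep.mixing [CompleteSpace H] (u v : H)
    (hv : ∀ w, (∀ g, π.op g w = w) → ⟪w, v⟫ = 0) :
    Tendsto (fun t : ℝ => ⟪π.op (uni t) u, v⟫) (Bornology.cobounded ℝ) (𝓝 0) := by
  rw [tendsto_iff_ultrafilter]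
  intro 𝓕 h𝓕
  -- the limit functional
  have hex : ∀ v' : H, ∃ c : ℝ, Tendsto (fun t : ℝ => ⟪π.op (uni t) u, v'⟫) 𝓕 (𝓝 c) ∧
      |c| ≤ ‖u‖ * ‖v'‖ := by
    intro v'
    have hK : IsCompact (Set.Icc (-(‖u‖ * ‖v'‖)) (‖u‖ * ‖v'‖)) := isCompact_Icc
    have hm : ∀ t : ℝ, ⟪π.op (uni t) u, v'⟫ ∈ Set.Icc (-(‖u‖ * ‖v'‖)) (‖u‖ * ‖v'‖) := by
      intro t
      have := abs_real_inner_le_norm (π.op (uni t) u) v'
      rw [LinearIsometry.norm_map] at this
      exact abs_le.1 this
    have := hK.ultrafilter_le_nhds (𝓕.map fun t : ℝ => ⟪π.op (uni t) u, v'⟫) (by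
      rw [le_principal_iff, Ultrafilter.coe_map, Filter.mem_map]
      exact Filter.univ_mem' hm)
    obtain ⟨c, hc, hc2⟩ := this
    exact ⟨c, hc2, abs_le.2 hc⟩
  choose L hL hLb using hex
  have hadd : ∀ x y, L (x + y) = L x + L y := by
    intro x y
    have h1 := (hL x).add (hL y)
    have h2 := hL (x + y)
    simp only [inner_add_right] at h2
    exact tendsto_nhds_unique h2 h1
  have hsmul : ∀ (c : ℝ) x, L (c • x) = c * L x := by
    intro c x
    have h1 := (hL x).const_mul c
    have h2 := hL (c • x)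
    simp only [real_inner_smul_right] at h2
    exact tendsto_nhds_unique h2 h1
  let Lm : H →ₗ[ℝ] ℝ :=
    { toFun := L
      map_add' := hadd
      map_smul' := fun c x => by simpa using hsmul c x }
  let Lc : H →L[ℝ] ℝ := Lm.mkContinuous ‖u‖ (by
    intro x; exact hLb x)
  let w : H := (InnerProductSpace.toDual ℝ H).symm Lc
  have hw : ∀ v', ⟪w, v'⟫ = L v' := by
    intro v'
    exact InnerProductSpace.toDual_symm_apply
  -- invariance
  have hinv : ∀ τ, π.op (uni τ) w = w := by
    intro τ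
    refine ext_inner_right ℝ fun v' => ?_
    rw [π.inner_op, ← uni_neg, hw, hw]
    have e1 := hL (π.op (uni (-τ)) v')
    have e2 : ∀ t, ⟪π.op (uni t) u, π.op (uni (-τ)) v'⟫ = ⟪π.op (uni (t + τ)) u, v'⟫ := by
      intro t
      rw [uni_neg, ← π.inner_op, ← π.map_mul, ← uni_add, add_comm]
    simp only [e2] at e1
    -- compare with the unshifted coefficient
    let r : ℝ → ℝ := fun t => Real.log (1 + τ / t) / 2
    have hr : Tendsto r (Bornology.cobounded ℝ) (𝓝 0) := by
      have h1 : Tendsto (fun t : ℝ => 1 + τ / t) (Bornology.cobounded ℝ) (𝓝 (1 + 0)) := by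
        apply Tendsto.add tendsto_const_nhds
        have h3 := (tendsto_inv₀_cobounded (α := ℝ)).const_mul τ
        rw [mul_zero] at h3
        exact h3.congr fun t => (div_eq_mul_inv τ t).symm
      have h2 := ((Real.continuousAt_log (by norm_num : (1 + (0:ℝ)) ≠ 0)).tendsto.comp h1).div_const 2
      simpa [r, Function.comp_def] using h2
    have hev : ∀ᶠ t in Bornology.cobounded ℝ, uni (t + τ) = dia (r t) * uni t * dia (-r t) := by
      have h1 : ∀ᶠ t : ℝ in Bornology.cobounded ℝ, |τ| < ‖t‖ :=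
        tendsto_norm_cobounded_atTop.eventually_gt_atTop _
      filter_upwards [h1] with t ht
      rw [Real.norm_eq_abs] at ht
      have ht0 : t ≠ 0 := by
        rintro rfl
        simp at ht
        exact absurd (abs_nonneg τ) (not_le.2 ht)
      have h3 : |τ / t| < 1 := by
        rw [abs_div, div_lt_one (abs_pos.2 ht0)]; exact ht
      have hpos : 0 < 1 + τ / t := by
        have := (abs_lt.1 h3).1
        linarith
      rw [dia_uni_dia]
      congr 1
      have : 2 * r t = Real.log (1 + τ / t) := by simp only [r]; ring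
      rw [this, Real.exp_log hpos]
      field_simp
    have hdiff : Tendsto (fun t => ⟪π.op (uni (t + τ)) u, v'⟫ - ⟪π.op (uni t) u, v'⟫)
        (Bornology.cobounded ℝ) (𝓝 0) := by
      have hb : Tendsto (fun t => ‖π.op (dia (-r t)) u - u‖ * ‖v'‖ +
          ‖u‖ * ‖π.op (dia (-r t)) v' - v'‖) (Bornology.cobounded ℝ) (𝓝 0) := by
        have hx : ∀ x : H, Tendsto (fun t => ‖π.op (dia (-r t)) x - x‖)
            (Bornology.cobounded ℝ) (𝓝 0) := by
          intro x
          have hc : Continuous fun s : ℝ => ‖π.op (dia (-s)) x - x‖ :=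
            (((π.cont x).comp (continuous_dia.comp continuous_neg)).sub continuous_const).norm
          have := (hc.tendsto 0).comp hr
          simpa [Function.comp_def, dia_zero, π.map_one] using this
        have := ((hx u).mul_const ‖v'‖).add ((hx v').const_mul ‖u‖)
        simpa using this
      refine squeeze_zero_norm' ?_ hb
      filter_upwards [hev] with t ht
      rw [ht, π.map_mul, π.map_mul, π.inner_op (dia (r t)), ← dia_neg]
      have e3 : ⟪π.op (uni t) (π.op (dia (-r t)) u), π.op (dia (-r t)) v'⟫ -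
          ⟪π.op (uni t) u, v'⟫ =
          ⟪π.op (uni t) (π.op (dia (-r t)) u - u), π.op (dia (-r t)) v'⟫ +
          ⟪π.op (uni t) u, π.op (dia (-r t)) v' - v'⟫ := by
        rw [map_sub, inner_sub_left, inner_sub_right]; ring
      rw [e3]
      refine (norm_add_le _ _).trans (add_le_add ?_ ?_)
      · refine (norm_inner_le_norm _ _).trans ?_
        rw [LinearIsometry.norm_map, LinearIsometry.norm_map]
      · refine (norm_inner_le_norm _ _).trans ?_
        rw [LinearIsometry.norm_map]
    have e4 : Tendsto (fun t => ⟪π.op (uni (t + τ)) u, v'⟫) 𝓕 (𝓝 (L v')) := by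
      have := (hdiff.mono_left h𝓕).add (hL v')
      simpa using this
    exact tendsto_nhds_unique e1 e4
  have hG := π.mautner w hinv
  have := hL v
  rwa [← hw, hv w hG] at this

end Hilbert

end Pool.Agent.Horo
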