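import Pool.Agent.Lib.MP_cea16d_an.Single

/-!
# Multi-scale estimates
-/

set_option linter.unusedSectionVars false

noncomputable section

namespace Pool.Agent.Horo

open Filter Topology MeasureTheory
open scoped RealInnerProductSpace

/-- Tail weights. -/
def wt (j : ℕ) : ℝ := 1 / (j + 100)

/-- Weights. -/
def ct (j : ℕ) : ℝ := 1 / ((j + 100) * (j + 101))

lemma wt_pos (j : ℕ) : 0 < wt j := by unfold wt; positivity
lemma ct_pos (j : ℕ) : 0 < ct j := by unfold ct; positivity

lemma ct_eq (j : ℕ) : ct j = wt j - wt (j + 1) := by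
  unfold ct wt; push_cast; field_simp; ring

lemma ct_le (j : ℕ) : ct j ≤ wt (j + 1) / 100 := by
  unfold ct wt
  push_cast
  have hj : (0:ℝ) ≤ j := Nat.cast_nonneg j
  rw [div_div, div_le_div_iff₀ (by positivity) (by positivity)]
  nlinarith

lemma ct_anti {i j : ℕ} (h : i ≤ j) : ct j ≤ ct i := by
  unfold ct
  have : (i:ℝ) ≤ j := by exact_mod_cast h
  gcongr

lemma sum_ct (n : ℕ) : ∑ j ∈ Finset.range n, ct j = wt 0 - wt n := by
  induction n with
  | zero => simp
  | succ n ih => rw [Finset.sum_range_succ, ih, ct_eq]; ring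

lemma sum_ct_le (n : ℕ) : ∑ j ∈ Finset.range n, ct j ≤ 1 := by
  rw [sum_ct]
  have h1 := wt_pos n
  have h2 : wt 0 ≤ 1 := by unfold wt; norm_num
  linarith

lemma summable_ct : Summable ct :=
  summable_of_sum_range_le (fun j => (ct_pos j).le) sum_ct_le

lemma tendsto_wt : Tendsto wt atTop (𝓝 0) := by
  unfold wt
  have h : Tendsto (fun j : ℕ => ((j:ℝ) + 100)) atTop atTop :=
    tendsto_atTop_add_const_right _ _ tendsto_natCast_atTop_atTop
  simpa [one_div, Function.comp_def] using tendsto_inv_atTop_zero.comp h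

lemma sum_half (n : ℕ) : ∑ j ∈ Finset.range n, ((1:ℝ) / 2) ^ (j + 1) ≤ 1 := by
  have : ∑ j ∈ Finset.range n, ((1:ℝ) / 2) ^ (j + 1) = 1 - (1 / 2) ^ n := by
    induction n with
    | zero => simp
    | succ n ih => rw [Finset.sum_range_succ, ih]; ring
  rw [this]
  have : (0:ℝ) < (1 / 2) ^ n := by positivity
  linarith

/-- Abel summation. -/
lemma abel_sum (A : ℕ → ℝ) (n : ℕ) :
    ∑ j ∈ Finset.range n, wt (j + 1) * (A (j + 1) - A j) + wt 0 * A 0 =
      ∑ j ∈ Finset.range (n + 1), ct j * A j + wt (n + 1) * A n := by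
  induction n with
  | zero => simp [ct_eq]; ring
  | succ n ih =>
    rw [Finset.sum_range_succ, Finset.sum_range_succ (fun j => ct j * A j)]
    have h := ct_eq (n + 1)
    rw [h]
    linear_combination ih

section

variable {X : Type*} [MeasurableSpace X] (μ : Measure X) [IsProbabilityMeasure μ]
  {I : Type*} (T : I → X → X) (V : Type*) [NormedAddCommGroup V] [InnerProductSpace ℝ V]

/-- The multi-scale data. -/
structure MData where
  /-- cardinality thresholds -/
  N : ℕ → ℕ
  /-- the sets -/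
  E : ℕ → Set X
  meas : ∀ j, MeasurableSet (E j)
  pos : ∀ j, 0 < μ.real (E j)
  dis : ∀ j, ∀ α β, α ≠ β → μ.real (T α ⁻¹' E j ∩ T β ⁻¹' E j) ≤ 2 * (μ.real (E j)) ^ 2
  N1 : ∀ j, 1 ≤ N j
  Nge : ∀ j, j ≤ N j
  Nmono : Monotone N
  small : ∀ j, N j * μ.real (E j) ≤ 1 / 100 * (1 / 2) ^ (j + 1)
  small2 : ∀ i j, i < j → N j * μ.real (E j) ≤ μ.real (E i) * (1 / 100 * (1 / 2) ^ (j + 1))
  decay : ∀ i j, i < j → ∀ (F : Finset I) (b : I → V) (A : ℝ),
      (∀ α ∈ F, ‖b α‖ * N j ≤ A) → ∑ α ∈ F, ‖b α‖ ≤ A →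
      ∫ x, ‖∑ α ∈ F, gf μ (E i) (T α x) • b α‖ ∂μ ≤ ct (j + 1) / 200 * A

variable {μ T V}

variable (D : MData μ T V) (hT : ∀ α, MeasurePreserving (T α) μ μ)

/-- Singular part at scale `j`. -/
def MData.s (G : ℕ → Finset I) (a : I → V) (j : ℕ) (x : X) : V :=
  (μ.real (D.E j))⁻¹ • ∑ α ∈ G j, chi (D.E j) (T α x) • a α

/-- Number of sets at scale `j` containing `x`. -/
def MData.cnt (G : ℕ → Finset I) (j : ℕ) (x : X) : ℝ :=
  ∑ α ∈ G j, chi (D.E j) (T α x)

lemma MData.cnt_nonneg (G : ℕ → Finset I) (j : ℕ) (x : X) : 0 ≤ D.cnt G j x :=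
  Finset.sum_nonneg fun _ _ => chi_nonneg _ _

lemma MData.s_dichotomy (G : ℕ → Finset I) (a : I → V) (j : ℕ) (x : X) :
    D.s G a j x = 0 ∨ 1 ≤ D.cnt G j x := by
  by_cases h : ∃ α ∈ G j, T α x ∈ D.E j
  · right
    obtain ⟨α, hα, hx⟩ := h
    have := Finset.single_le_sum (f := fun α => chi (D.E j) (T α x))
      (fun β _ => chi_nonneg _ _) hα
    simp only [chi_mem hx] at this
    exact this
  · left
    push Not at h
    unfold MData.s
    rw [Finset.sum_eq_zero fun α hα => by rw [chi_not_mem (h α hα), zero_smul], smul_zero]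

include hT in
lemma MData.integrable_cnt (G : ℕ → Finset I) (j : ℕ) : Integrable (D.cnt G j) μ :=
  integrable_finsetSum _ fun α _ => integrable_chi_comp (D.meas j) hT α

include hT in
lemma MData.integral_cnt (G : ℕ → Finset I) (j : ℕ) (hG : (G j).card ≤ D.N j) :
    ∫ x, D.cnt G j x ∂μ ≤ D.N j * μ.real (D.E j) := by
  unfold MData.cnt
  rw [integral_finsetSum _ fun α _ => integrable_chi_comp (D.meas j) hT α]
  simp only [integral_chi_comp (D.meas j) hT, Finset.sum_const, nsmul_eq_mul]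
  have : ((G j).card : ℝ) ≤ D.N j := by exact_mod_cast hG
  exact mul_le_mul_of_nonneg_right this (D.pos j).le

include hT in
lemma MData.integrable_s (G : ℕ → Finset I) (a : I → V) (j : ℕ) : Integrable (D.s G a j) μ :=
  (integrable_finsetSum _ fun α _ =>
    (integrable_chi_comp (D.meas j) hT α).smul_const (a α)).smul (μ.real (D.E j))⁻¹

lemma MData.norm_s_le (G : ℕ → Finset I) (a : I → V) (j : ℕ) (x : X) :
    ‖D.s G a j x‖ ≤ (μ.real (D.E j))⁻¹ * ∑ α ∈ G j, ‖a α‖ := by
  unfold MData.s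
  rw [norm_smul, Real.norm_of_nonneg (inv_nonneg.2 (D.pos j).le)]
  refine mul_le_mul_of_nonneg_left ?_ (inv_nonneg.2 (D.pos j).le)
  refine (norm_sum_le _ _).trans (Finset.sum_le_sum fun α _ => ?_)
  rw [norm_smul, Real.norm_of_nonneg (chi_nonneg _ _)]
  exact mul_le_of_le_one_left (norm_nonneg _) (chi_le_one _ _)

include hT in
lemma MData.integral_s_ge (G : ℕ → Finset I) (a : I → V) (j : ℕ) (hG : (G j).card ≤ D.N j) :
    (98 / 100) * ∑ α ∈ G j, ‖a α‖ ≤ ∫ x, ‖D.s G a j x‖ ∂μ := by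
  have hδ := D.pos j
  have h1 := sum_chi_lower (D.meas j) hT (D.dis j) (G j) a (D.N j) hG
  have h2 : ∀ x, ‖D.s G a j x‖ = (μ.real (D.E j))⁻¹ * ‖∑ α ∈ G j, chi (D.E j) (T α x) • a α‖ := by
    intro x
    unfold MData.s
    rw [norm_smul, Real.norm_of_nonneg (inv_nonneg.2 hδ.le)]
  simp only [h2]
  rw [integral_const_mul]
  have h3 : D.N j * μ.real (D.E j) ≤ 1 / 100 := by
    refine (D.small j).trans ?_
    have : ((1:ℝ) / 2) ^ (j + 1) ≤ 1 := pow_le_one₀ (by norm_num) (by norm_num)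
    linarith
  have hA : 0 ≤ ∑ α ∈ G j, ‖a α‖ := Finset.sum_nonneg fun _ _ => norm_nonneg _
  calc (98 / 100) * ∑ α ∈ G j, ‖a α‖ ≤ (1 - 2 * (D.N j * μ.real (D.E j))) * ∑ α ∈ G j, ‖a α‖ := by
        refine mul_le_mul_of_nonneg_right ?_ hA
        linarith
    _ = (μ.real (D.E j))⁻¹ * ((μ.real (D.E j) - 2 * D.N j * μ.real (D.E j) ^ 2) *
          ∑ α ∈ G j, ‖a α‖) := by field_simp
    _ ≤ _ := mul_le_mul_of_nonneg_left h1 (inv_nonneg.2 hδ.le)

/-- The weighted sum. -/
def Lam (A : ℕ → ℝ) (J : ℕ) : ℝ := ∑ j ∈ Finset.range J, ct j * A j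

include hT in
lemma MData.lower_u (G : ℕ → Finset I) (a : I → V) (hG : ∀ j, (G j).card ≤ D.N j) (J : ℕ) :
    (96 / 100) * Lam (fun j => ∑ α ∈ G j, ‖a α‖) J ≤
      ∫ x, ‖∑ j ∈ Finset.range J, ct j • D.s G a j x‖ ∂μ := by
  set A : ℕ → ℝ := fun j => ∑ α ∈ G j, ‖a α‖ with hA
  have hA0 : ∀ j, 0 ≤ A j := fun j => Finset.sum_nonneg fun _ _ => norm_nonneg _
  have hLmono : ∀ i j, i ≤ j → Lam A i ≤ Lam A j := by
    intro i j hij
    unfold Lam
    exact Finset.sum_le_sum_of_subset_of_nonneg (Finset.range_subset_range.2 hij)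
      fun k _ _ => mul_nonneg (ct_pos k).le (hA0 k)
  have main : ∀ J, (98 / 100) * Lam A J - ∑ j ∈ Finset.range J, (2 / 100) * (1 / 2) ^ (j + 1) *
      Lam A j ≤ ∫ x, ‖∑ j ∈ Finset.range J, ct j • D.s G a j x‖ ∂μ := by
    intro J
    induction J with
    | zero => simp [Lam]
    | succ J ih =>
      set u : X → V := fun x => ∑ j ∈ Finset.range J, ct j • D.s G a j x with hu
      have iu : Integrable u μ :=
        integrable_finsetSum _ fun j _ => (D.integrable_s hT G a j).smul (ct j)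
      have iv : Integrable (fun x => ct J • D.s G a J x) μ := (D.integrable_s hT G a J).smul (ct J)
      set U : ℝ := ∑ j ∈ Finset.range J, ct j * ((μ.real (D.E j))⁻¹ * A j) with hU
      have hU0 : 0 ≤ U := Finset.sum_nonneg fun j _ =>
        mul_nonneg (ct_pos j).le (mul_nonneg (inv_nonneg.2 (D.pos j).le) (hA0 j))
      have huU : ∀ x, ‖u x‖ ≤ U := by
        intro x
        refine (norm_sum_le _ _).trans (Finset.sum_le_sum fun j _ => ?_)
        rw [norm_smul, Real.norm_of_nonneg (ct_pos j).le]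
        exact mul_le_mul_of_nonneg_left (D.norm_s_le G a j x) (ct_pos j).le
      have hpt : ∀ x, ‖u x‖ + ‖ct J • D.s G a J x‖ - 2 * U * D.cnt G J x ≤
          ‖∑ j ∈ Finset.range (J + 1), ct j • D.s G a j x‖ := by
        intro x
        rw [Finset.sum_range_succ]
        rcases D.s_dichotomy G a J x with h | h
        · rw [h, smul_zero, norm_zero, add_zero, add_zero]
          have : 0 ≤ 2 * U * D.cnt G J x := by
            have := D.cnt_nonneg G J x
            positivity
          have e : ‖u x‖ = ‖∑ j ∈ Finset.range J, ct j • D.s G a j x‖ := rfl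
          linarith
        · have h1 : ‖ct J • D.s G a J x‖ - ‖u x‖ ≤ ‖u x + ct J • D.s G a J x‖ := by
            have := norm_sub_norm_le (ct J • D.s G a J x) (-(u x))
            rw [norm_neg, sub_neg_eq_add, add_comm (ct J • D.s G a J x)] at this
            exact this
          have h2 := huU x
          have h3 : U * 1 ≤ U * D.cnt G J x := mul_le_mul_of_nonneg_left h hU0
          have e : ‖u x + ct J • D.s G a J x‖ =
            ‖∑ j ∈ Finset.range J, ct j • D.s G a j x + ct J • D.s G a J x‖ := rfl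
          linarith
      have icnt := D.integrable_cnt hT G J
      have isum : Integrable (fun x => ∑ j ∈ Finset.range (J + 1), ct j • D.s G a j x) μ :=
        integrable_finsetSum _ fun j _ => (D.integrable_s hT G a j).smul (ct j)
      have h4 := integral_mono ((iu.norm.add iv.norm).sub (icnt.const_mul (2 * U))) isum.norm hpt
      have j1 : Integrable (fun x => ‖u x‖ + ‖ct J • D.s G a J x‖) μ := iu.norm.add iv.norm
      have e5 : ∫ x, ((fun x => ‖u x‖) + (fun x => ‖ct J • D.s G a J x‖) -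
          fun x => 2 * U * D.cnt G J x) x ∂μ =
          ∫ x, ‖u x‖ ∂μ + ∫ x, ‖ct J • D.s G a J x‖ ∂μ - 2 * U * ∫ x, D.cnt G J x ∂μ := by
        have : ∀ x, ((fun x => ‖u x‖) + (fun x => ‖ct J • D.s G a J x‖) -
          fun x => 2 * U * D.cnt G J x) x = (‖u x‖ + ‖ct J • D.s G a J x‖) -
            2 * U * D.cnt G J x := fun x => rfl
        simp only [this]
        rw [integral_sub j1 (icnt.const_mul _), integral_add iu.norm iv.norm, integral_const_mul]
      rw [e5] at h4
      refine le_trans ?_ h4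
      have h6 : ∫ x, ‖ct J • D.s G a J x‖ ∂μ = ct J * ∫ x, ‖D.s G a J x‖ ∂μ := by
        rw [← integral_const_mul]
        refine integral_congr_ae (Filter.Eventually.of_forall fun x => ?_)
        simp only [norm_smul, Real.norm_of_nonneg (ct_pos J).le]
      have h7 : ct J * ((98 / 100) * A J) ≤ ct J * ∫ x, ‖D.s G a J x‖ ∂μ :=
        mul_le_mul_of_nonneg_left (D.integral_s_ge hT G a J (hG J)) (ct_pos J).le
      have h8 : U * ∫ x, D.cnt G J x ∂μ ≤ (1 / 100 * (1 / 2) ^ (J + 1)) * Lam A J := by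
        have h9 := D.integral_cnt hT G J (hG J)
        calc U * ∫ x, D.cnt G J x ∂μ ≤ U * (D.N J * μ.real (D.E J)) :=
              mul_le_mul_of_nonneg_left h9 hU0
          _ = ∑ j ∈ Finset.range J, (ct j * ((μ.real (D.E j))⁻¹ * A j)) *
                (D.N J * μ.real (D.E J)) := by rw [hU, Finset.sum_mul]
          _ ≤ ∑ j ∈ Finset.range J, (1 / 100 * (1 / 2) ^ (J + 1)) * (ct j * A j) := by
              refine Finset.sum_le_sum fun j hj => ?_
              have h10 := D.small2 j J (Finset.mem_range.1 hj)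
              have h11 : 0 ≤ ct j * ((μ.real (D.E j))⁻¹ * A j) :=
                mul_nonneg (ct_pos j).le (mul_nonneg (inv_nonneg.2 (D.pos j).le) (hA0 j))
              refine (mul_le_mul_of_nonneg_left h10 h11).trans (le_of_eq ?_)
              have := (D.pos j).ne'
              field_simp
          _ = (1 / 100 * (1 / 2) ^ (J + 1)) * Lam A J := by
              rw [Lam, Finset.mul_sum]
      have h12 : Lam A (J + 1) = Lam A J + ct J * A J := by
        unfold Lam; rw [Finset.sum_range_succ]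
      rw [Finset.sum_range_succ, h12, h6]
      nlinarith
  have hfin := main J
  have h13 : ∑ j ∈ Finset.range J, (2 / 100) * (1 / 2) ^ (j + 1) * Lam A j ≤
      (2 / 100) * Lam A J := by
    have h14 : ∀ j ∈ Finset.range J, (2 / 100) * (1 / 2) ^ (j + 1) * Lam A j ≤
        ((1:ℝ) / 2) ^ (j + 1) * ((2 / 100) * Lam A J) := by
      intro j hj
      have := hLmono j J (Finset.mem_range.1 hj).le
      have h15 : (0:ℝ) < (1 / 2) ^ (j + 1) := by positivity
      nlinarith [mul_le_mul_of_nonneg_left this h15.le]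
    refine (Finset.sum_le_sum h14).trans ?_
    rw [← Finset.sum_mul]
    have h16 : 0 ≤ (2 / 100) * Lam A J := by
      have : 0 ≤ Lam A J := Finset.sum_nonneg fun k _ => mul_nonneg (ct_pos k).le (hA0 k)
      positivity
    have := mul_le_mul_of_nonneg_right (sum_half J) h16
    linarith
  linarith

/-- `P_j(i) = ∑_{α ∈ G i} g_j(T_α x) a_α`. -/
def MData.P (G : ℕ → Finset I) (a : I → V) (j i : ℕ) (x : X) : V :=
  ∑ α ∈ G i, gf μ (D.E j) (T α x) • a α

lemma MData.P_eq (G : ℕ → Finset I) (a : I → V) (j : ℕ) (x : X) :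
    D.P G a j j x = D.s G a j x - ∑ α ∈ G j, a α := by
  unfold MData.P MData.s
  rw [Finset.smul_sum, ← Finset.sum_sub_distrib]
  refine Finset.sum_congr rfl fun α _ => ?_
  unfold gf
  rw [sub_smul, one_smul, mul_smul]

include hT in
lemma MData.integrable_P (G : ℕ → Finset I) (a : I → V) (j i : ℕ) :
    Integrable (D.P G a j i) μ :=
  integrable_sum_gf (D.meas j) hT (G i) a

include hT in
/-- Lower bound for the diagonal part. -/
lemma MData.lower_diag (G : ℕ → Finset I) (a : I → V) (hG : ∀ j, (G j).card ≤ D.N j) (J : ℕ) :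
    (95 / 100) * Lam (fun j => ∑ α ∈ G j, ‖a α‖) J ≤
      ∫ x, ‖∑ j ∈ Finset.range J, ct j • D.P G a j j x‖ ∂μ := by
  set A : ℕ → ℝ := fun j => ∑ α ∈ G j, ‖a α‖ with hA
  have hA0 : ∀ j, 0 ≤ A j := fun j => Finset.sum_nonneg fun _ _ => norm_nonneg _
  set K : V := ∑ j ∈ Finset.range J, ct j • ∑ α ∈ G j, a α with hK
  have hKn : ‖K‖ ≤ Lam A J := by
    refine (norm_sum_le _ _).trans (Finset.sum_le_sum fun j _ => ?_)
    rw [norm_smul, Real.norm_of_nonneg (ct_pos j).le]
    exact mul_le_mul_of_nonneg_left (norm_sum_le _ _) (ct_pos j).le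
  set u : X → V := fun x => ∑ j ∈ Finset.range J, ct j • D.s G a j x with hu
  set Y : X → ℝ := fun x => ∑ j ∈ Finset.range J, D.cnt G j x with hY
  have hY0 : ∀ x, 0 ≤ Y x := fun x => Finset.sum_nonneg fun j _ => D.cnt_nonneg G j x
  have e1 : ∀ x, ∑ j ∈ Finset.range J, ct j • D.P G a j j x = u x - K := by
    intro x
    rw [hu, hK, ← Finset.sum_sub_distrib]
    refine Finset.sum_congr rfl fun j _ => ?_
    rw [D.P_eq, smul_sub]
  have iu : Integrable u μ :=
    integrable_finsetSum _ fun j _ => (D.integrable_s hT G a j).smul (ct j)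
  have iY : Integrable Y μ := integrable_finsetSum _ fun j _ => D.integrable_cnt hT G j
  have hpt : ∀ x, ‖u x‖ - Lam A J * Y x ≤ ‖∑ j ∈ Finset.range J, ct j • D.P G a j j x‖ := by
    intro x
    rw [e1]
    have hL0 : 0 ≤ Lam A J := (norm_nonneg _).trans hKn
    by_cases h : ∃ j ∈ Finset.range J, 1 ≤ D.cnt G j x
    · obtain ⟨j, hj, h1⟩ := h
      have h2 : 1 ≤ Y x := h1.trans (Finset.single_le_sum (f := fun j => D.cnt G j x)
        (fun i _ => D.cnt_nonneg G i x) hj)
      have h3 := norm_sub_norm_le (u x) K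
      have h4 : Lam A J * 1 ≤ Lam A J * Y x := mul_le_mul_of_nonneg_left h2 hL0
      linarith
    · push Not at h
      have h5 : u x = 0 := by
        rw [hu]
        refine Finset.sum_eq_zero fun j hj => ?_
        rcases D.s_dichotomy G a j x with h6 | h6
        · rw [h6, smul_zero]
        · exact absurd h6 (not_le.2 (h j hj))
      rw [h5, norm_zero]
      have := mul_nonneg hL0 (hY0 x)
      have := norm_nonneg (0 - K)
      linarith
  have isum : Integrable (fun x => ∑ j ∈ Finset.range J, ct j • D.P G a j j x) μ :=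
    integrable_finsetSum _ fun j _ => (D.integrable_P hT G a j j).smul (ct j)
  have h7 := integral_mono (iu.norm.sub (iY.const_mul (Lam A J))) isum.norm hpt
  have e8 : ∫ x, ((fun x => ‖u x‖) - fun x => Lam A J * Y x) x ∂μ =
      ∫ x, ‖u x‖ ∂μ - Lam A J * ∫ x, Y x ∂μ := by
    have : ∀ x, ((fun x => ‖u x‖) - fun x => Lam A J * Y x) x = ‖u x‖ - Lam A J * Y x :=
      fun x => rfl
    simp only [this]
    rw [integral_sub iu.norm (iY.const_mul _), integral_const_mul]
  rw [e8] at h7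
  refine le_trans ?_ h7
  have h9 := D.lower_u hT G a hG J
  have h10 : ∫ x, Y x ∂μ ≤ 1 / 100 := by
    rw [hY, integral_finsetSum _ fun j _ => D.integrable_cnt hT G j]
    have h11 : ∀ j ∈ Finset.range J, ∫ x, D.cnt G j x ∂μ ≤ 1 / 100 * (1 / 2) ^ (j + 1) :=
      fun j _ => (D.integral_cnt hT G j (hG j)).trans (D.small j)
    refine (Finset.sum_le_sum h11).trans ?_
    rw [← Finset.mul_sum]
    have := sum_half J
    linarith
  have hL0 : 0 ≤ Lam A J := (norm_nonneg _).trans hKn
  have h12 : Lam A J * ∫ x, Y x ∂μ ≤ Lam A J * (1 / 100) := mul_le_mul_of_nonneg_left h10 hL0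
  linarith

include hT in
/-- Upper bound for the diagonal part. -/
lemma MData.upper_diag (G : ℕ → Finset I) (a : I → V) (J : ℕ) :
    ∫ x, ‖∑ j ∈ Finset.range J, ct j • D.P G a j j x‖ ∂μ ≤
      2 * Lam (fun j => ∑ α ∈ G j, ‖a α‖) J := by
  have i1 : ∀ j ∈ Finset.range J, Integrable (fun x => ct j * ‖D.P G a j j x‖) μ := fun j _ =>
    (D.integrable_P hT G a j j).norm.const_mul _
  have isum : Integrable (fun x => ∑ j ∈ Finset.range J, ct j • D.P G a j j x) μ :=
    integrable_finsetSum _ fun j _ => (D.integrable_P hT G a j j).smul (ct j)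
  have hpt : ∀ x, ‖∑ j ∈ Finset.range J, ct j • D.P G a j j x‖ ≤
      ∑ j ∈ Finset.range J, ct j * ‖D.P G a j j x‖ := by
    intro x
    refine (norm_sum_le _ _).trans (le_of_eq ?_)
    refine Finset.sum_congr rfl fun j _ => ?_
    rw [norm_smul, Real.norm_of_nonneg (ct_pos j).le]
  refine (integral_mono isum.norm (integrable_finsetSum _ i1) hpt).trans ?_
  rw [integral_finsetSum _ i1, Lam, Finset.mul_sum]
  refine Finset.sum_le_sum fun j _ => ?_
  rw [integral_const_mul]
  have := mul_le_mul_of_nonneg_left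
    (integral_norm_sum_gf_le (D.meas j) (D.pos j) hT (G j) a) (ct_pos j).le
  calc _ ≤ _ := this
    _ = _ := by ring

include hT in
/-- The error terms. -/
lemma MData.error (G : ℕ → Finset I) (a : I → V)
    (g1 : ∀ j, G j ⊆ G (j + 1))
    (g4 : ∀ j, ∀ α ∈ G (j + 1), α ∉ G j → ‖a α‖ * D.N j ≤ ∑ β ∈ G j, ‖a β‖) (n : ℕ) :
    ∫ x, ‖∑ j ∈ Finset.range (n + 1), ct j • (D.P G a j n x - D.P G a j j x)‖ ∂μ ≤
      (1 / 40) * Lam (fun j => ∑ α ∈ G j, ‖a α‖) (n + 1) +
        wt (n + 1) * ∑ α ∈ G n, ‖a α‖ := by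
  classical
  set A : ℕ → ℝ := fun j => ∑ α ∈ G j, ‖a α‖ with hA
  have hA0 : ∀ j, 0 ≤ A j := fun j => Finset.sum_nonneg fun _ _ => norm_nonneg _
  have hAmono : ∀ j, A j ≤ A (j + 1) := fun j =>
    Finset.sum_le_sum_of_subset_of_nonneg (g1 j) fun _ _ _ => norm_nonneg _
  -- increments
  have hinc : ∀ j i x, D.P G a j (i + 1) x - D.P G a j i x =
      ∑ α ∈ G (i + 1) \ G i, gf μ (D.E j) (T α x) • a α := by
    intro j i x
    unfold MData.P
    rw [← Finset.sum_sdiff (g1 i), add_sub_cancel_right]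
  have hAinc : ∀ i, ∑ α ∈ G (i + 1) \ G i, ‖a α‖ = A (i + 1) - A i := by
    intro i
    rw [hA]
    simp only
    rw [← Finset.sum_sdiff (g1 i), add_sub_cancel_right]
  have hdiag : ∀ j, ∫ x, ‖D.P G a j (j + 1) x - D.P G a j j x‖ ∂μ ≤ 2 * (A (j + 1) - A j) := by
    intro j
    simp only [hinc]
    rw [← hAinc]
    exact integral_norm_sum_gf_le (D.meas j) (D.pos j) hT _ a
  have hoff : ∀ j i, j < i → ∫ x, ‖D.P G a j (i + 1) x - D.P G a j i x‖ ∂μ ≤
      ct (i + 1) / 200 * A (i + 1) := by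
    intro j i hji
    simp only [hinc]
    refine D.decay j i hji _ a _ (fun α hα => ?_) ?_
    · rw [Finset.mem_sdiff] at hα
      exact (g4 i α hα.1 hα.2).trans (hAmono i)
    · rw [hAinc]
      have := hA0 i
      linarith
  have itel : ∀ j i, Integrable (fun x => D.P G a j (i + 1) x - D.P G a j i x) μ := fun j i =>
    (D.integrable_P hT G a j (i + 1)).sub (D.integrable_P hT G a j i)
  have htel : ∀ j, j ≤ n → ∀ x, D.P G a j n x - D.P G a j j x =
      ∑ i ∈ Finset.Ico j n, (D.P G a j (i + 1) x - D.P G a j i x) := by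
    intro j hj x
    rw [Finset.sum_Ico_sub (fun i => D.P G a j i x) hj]
  -- per scale bound
  have hscale : ∀ j, j < n → ∫ x, ‖D.P G a j n x - D.P G a j j x‖ ∂μ ≤
      2 * (A (j + 1) - A j) + (1 / 200) * Lam A (n + 1) := by
    intro j hj
    simp only [htel j hj.le]
    have hpt : ∀ x, ‖∑ i ∈ Finset.Ico j n, (D.P G a j (i + 1) x - D.P G a j i x)‖ ≤
        ∑ i ∈ Finset.Ico j n, ‖D.P G a j (i + 1) x - D.P G a j i x‖ := fun x => norm_sum_le _ _
    refine (integral_mono (integrable_finsetSum _ fun i _ => itel j i).norm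
      (integrable_finsetSum _ fun i _ => (itel j i).norm) hpt).trans ?_
    rw [integral_finsetSum _ fun i _ => (itel j i).norm, Finset.sum_eq_sum_Ico_succ_bot hj]
    refine add_le_add (hdiag j) ?_
    have h1 : ∀ i ∈ Finset.Ico (j + 1) n, ∫ x, ‖D.P G a j (i + 1) x - D.P G a j i x‖ ∂μ ≤
        (1 / 200) * (ct (i + 1) * A (i + 1)) := by
      intro i hi
      have := hoff j i (by have := (Finset.mem_Ico.1 hi).1; omega)
      calc _ ≤ _ := this
        _ = _ := by ring
    refine (Finset.sum_le_sum h1).trans ?_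
    rw [← Finset.mul_sum]
    refine mul_le_mul_of_nonneg_left ?_ (by norm_num)
    have h2 : ∑ i ∈ Finset.Ico (j + 1) n, ct (i + 1) * A (i + 1) =
        ∑ i ∈ Finset.Ico (j + 1 + 1) (n + 1), ct i * A i := by
      rw [Finset.sum_Ico_add' (fun i => ct i * A i) (j + 1) n 1]
    rw [h2, Lam]
    refine Finset.sum_le_sum_of_subset_of_nonneg ?_ fun i _ _ => mul_nonneg (ct_pos i).le (hA0 i)
    intro i hi
    exact Finset.mem_range.2 (Finset.mem_Ico.1 hi).2
  have i1 : ∀ j ∈ Finset.range (n + 1),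
      Integrable (fun x => ct j * ‖D.P G a j n x - D.P G a j j x‖) μ := fun j _ =>
    ((D.integrable_P hT G a j n).sub (D.integrable_P hT G a j j)).norm.const_mul _
  have isum : Integrable (fun x => ∑ j ∈ Finset.range (n + 1),
      ct j • (D.P G a j n x - D.P G a j j x)) μ :=
    integrable_finsetSum _ fun j _ =>
      ((D.integrable_P hT G a j n).sub (D.integrable_P hT G a j j)).smul (ct j)
  have hpt : ∀ x, ‖∑ j ∈ Finset.range (n + 1), ct j • (D.P G a j n x - D.P G a j j x)‖ ≤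
      ∑ j ∈ Finset.range (n + 1), ct j * ‖D.P G a j n x - D.P G a j j x‖ := by
    intro x
    refine (norm_sum_le _ _).trans (le_of_eq ?_)
    refine Finset.sum_congr rfl fun j _ => ?_
    rw [norm_smul, Real.norm_of_nonneg (ct_pos j).le]
  refine (integral_mono isum.norm (integrable_finsetSum _ i1) hpt).trans ?_
  rw [integral_finsetSum _ i1, Finset.sum_range_succ]
  have hlast : ∫ x, ct n * ‖D.P G a n n x - D.P G a n n x‖ ∂μ = 0 := by simp
  rw [hlast, add_zero]
  have h3 : ∀ j ∈ Finset.range n, ∫ x, ct j * ‖D.P G a j n x - D.P G a j j x‖ ∂μ ≤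
      (1 / 50) * (wt (j + 1) * (A (j + 1) - A j)) + ct j * ((1 / 200) * Lam A (n + 1)) := by
    intro j hj
    rw [integral_const_mul]
    have h4 := mul_le_mul_of_nonneg_left (hscale j (Finset.mem_range.1 hj)) (ct_pos j).le
    have h5 := ct_le j
    have h6 : 0 ≤ A (j + 1) - A j := by have := hAmono j; linarith
    have h7 := mul_le_mul_of_nonneg_right h5 h6
    nlinarith
  refine (Finset.sum_le_sum h3).trans ?_
  rw [Finset.sum_add_distrib, ← Finset.mul_sum, ← Finset.sum_mul]
  have h8 := abel_sum A n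
  have h9 := sum_ct_le n
  have hL0 : 0 ≤ Lam A (n + 1) := Finset.sum_nonneg fun k _ => mul_nonneg (ct_pos k).le (hA0 k)
  have h10 : (∑ j ∈ Finset.range n, ct j) * ((1 / 200) * Lam A (n + 1)) ≤
      1 * ((1 / 200) * Lam A (n + 1)) := mul_le_mul_of_nonneg_right h9 (by positivity)
  have h11 : 0 ≤ wt 0 * A 0 := mul_nonneg (wt_pos 0).le (hA0 0)
  have h12 : 0 ≤ wt (n + 1) * A n := mul_nonneg (wt_pos _).le (hA0 n)
  have h13 : Lam A (n + 1) = ∑ j ∈ Finset.range (n + 1), ct j * A j := rfl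
  have h14 : ∑ α ∈ G n, ‖a α‖ = A n := rfl
  rw [h14]
  nlinarith

end

end Pool.Agent.Horo
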