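import Pool.Agent.Lib.MP_cea16d_an.Flow

/-!
# The homogeneous space `Γ \ PSL(2,ℝ)`
-/

set_option linter.unusedSectionVars false

noncomputable section

namespace Pool.Agent.Horo

open Filter Topology MeasureTheory
open scoped ENNReal

/-- The group `PSL(2,ℝ)`. -/
def PSL2 : Type := Matrix.ProjectiveSpecialLinearGroup (Fin 2) ℝ

/-- The group structure of `PSL(2,ℝ)`. -/
instance : Group PSL2 := inferInstanceAs (Group (Matrix.ProjectiveSpecialLinearGroup (Fin 2) ℝ))

/-- The quotient topology of `PSL(2,ℝ)`. -/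
instance : TopologicalSpace PSL2 :=
  inferInstanceAs (TopologicalSpace (Matrix.ProjectiveSpecialLinearGroup (Fin 2) ℝ))

instance : IsTopologicalGroup PSL2 :=
  inferInstanceAs (IsTopologicalGroup (Matrix.ProjectiveSpecialLinearGroup (Fin 2) ℝ))

/-- The space `Γ \ PSL(2,ℝ)` of cosets `Γ g`. -/
def XG (Γ : Subgroup PSL2) : Type := Quotient (QuotientGroup.rightRel Γ)

variable (Γ : Subgroup PSL2)

/-- The quotient topology. -/
instance : TopologicalSpace (XG Γ) :=
  inferInstanceAs (TopologicalSpace (Quotient (QuotientGroup.rightRel Γ)))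

/-- The Borel `σ`-algebra. -/
instance : MeasurableSpace (XG Γ) := borel (XG Γ)

instance : BorelSpace (XG Γ) := ⟨rfl⟩

/-- The coset `Γ g`. -/
def XG.mk (g : PSL2) : XG Γ := Quotient.mk (QuotientGroup.rightRel Γ) g

lemma XG.mk_surjective : Function.Surjective (XG.mk Γ) := Quotient.mk_surjective

lemma XG.mk_eq_iff (g h : PSL2) : XG.mk Γ g = XG.mk Γ h ↔ h * g⁻¹ ∈ Γ := by
  have h1 : XG.mk Γ g = XG.mk Γ h ↔ (QuotientGroup.rightRel Γ) g h :=
    Quotient.eq (r := QuotientGroup.rightRel Γ)
  exact h1.trans QuotientGroup.rightRel_apply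

/-- Right translation `Γ g ↦ Γ g h`. -/
def rtransFun (h : PSL2) : XG Γ → XG Γ :=
  Quotient.map (fun g => g * h) (fun a b hab => by
    have h1 : b * a⁻¹ ∈ Γ := QuotientGroup.rightRel_apply.1 hab
    refine QuotientGroup.rightRel_apply.2 ?_
    have : b * h * (a * h)⁻¹ = b * a⁻¹ := by group
    rw [this]; exact h1)

@[simp] lemma rtransFun_mk (h g : PSL2) : rtransFun Γ h (XG.mk Γ g) = XG.mk Γ (g * h) := rfl

lemma rtransFun_one (x : XG Γ) : rtransFun Γ 1 x = x := by
  obtain ⟨g, rfl⟩ := XG.mk_surjective Γ x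
  rw [rtransFun_mk, mul_one]

lemma rtransFun_mul (h k : PSL2) (x : XG Γ) :
    rtransFun Γ k (rtransFun Γ h x) = rtransFun Γ (h * k) x := by
  obtain ⟨g, rfl⟩ := XG.mk_surjective Γ x
  rw [rtransFun_mk, rtransFun_mk, rtransFun_mk, mul_assoc]

/-- Right translation as a permutation of `Γ \ PSL(2,ℝ)`. -/
def rtrans (h : PSL2) : Equiv.Perm (XG Γ) where
  toFun := rtransFun Γ h
  invFun := rtransFun Γ h⁻¹
  left_inv x := by rw [rtransFun_mul, mul_inv_cancel, rtransFun_one]
  right_inv x := by rw [rtransFun_mul, inv_mul_cancel, rtransFun_one]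

@[simp] lemma rtrans_mk (h g : PSL2) : rtrans Γ h (XG.mk Γ g) = XG.mk Γ (g * h) := rfl

/-- The projection `SL(2,ℝ) → PSL(2,ℝ)`. -/
def toPSL : SL2 →* PSL2 := QuotientGroup.mk' (Subgroup.center SL2)

lemma continuous_toPSL : Continuous toPSL :=
  QuotientGroup.continuous_mk (N := Subgroup.center SL2)

lemma toPSL_surjective : Function.Surjective toPSL :=
  QuotientGroup.mk'_surjective (Subgroup.center SL2)

/-- The left action of `SL(2,ℝ)` by `g • Γ x = Γ x g⁻¹`. -/
instance : MulAction SL2 (XG Γ) where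
  smul g x := rtransFun Γ (toPSL g)⁻¹ x
  one_smul x := by
    show rtransFun Γ (toPSL 1)⁻¹ x = x
    rw [map_one, inv_one, rtransFun_one]
  mul_smul g h x := by
    show rtransFun Γ (toPSL (g * h))⁻¹ x = rtransFun Γ (toPSL g)⁻¹ (rtransFun Γ (toPSL h)⁻¹ x)
    rw [rtransFun_mul, map_mul, mul_inv_rev]

lemma smul_def (g : SL2) (x : XG Γ) : g • x = rtransFun Γ (toPSL g)⁻¹ x := rfl

lemma isOpenQuotientMap_mk : IsOpenQuotientMap (XG.mk Γ) where
  surjective := XG.mk_surjective Γ
  continuous := continuous_quotient_mk'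
  isOpenMap := isOpenMap_quotient_mk'_mul (Γ := Γ) (T := PSL2)

instance : ContinuousSMul SL2 (XG Γ) where
  continuous_smul := by
    have h1 : IsOpenQuotientMap (Prod.map (id : SL2 → SL2) (XG.mk Γ)) :=
      IsOpenQuotientMap.id.prodMap (isOpenQuotientMap_mk Γ)
    rw [h1.isQuotientMap.continuous_iff]
    have h2 : (fun p : SL2 × XG Γ => p.1 • p.2) ∘ Prod.map (id : SL2 → SL2) (XG.mk Γ) =
        fun p : SL2 × PSL2 => XG.mk Γ (p.2 * (toPSL p.1)⁻¹) := by
      ext p; rfl
    rw [h2]
    exact (isOpenQuotientMap_mk Γ).continuous.comp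
      (continuous_snd.mul (continuous_toPSL.comp continuous_fst).inv)

lemma transitive (x y : XG Γ) : ∃ g : SL2, g • x = y := by
  obtain ⟨a, rfl⟩ := XG.mk_surjective Γ x
  obtain ⟨b, rfl⟩ := XG.mk_surjective Γ y
  obtain ⟨g, hg⟩ := toPSL_surjective (b⁻¹ * a)
  refine ⟨g, ?_⟩
  rw [smul_def, hg, rtransFun_mk]
  congr 1
  group

lemma isClosed_center : IsClosed ((Subgroup.center SL2 : Subgroup SL2) : Set SL2) := by
  have : ((Subgroup.center SL2 : Subgroup SL2) : Set SL2) =
      ⋂ g : SL2, {z | g * z = z * g} := by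
    ext z
    simp [Subgroup.mem_center_iff]
  rw [this]
  refine isClosed_iInter fun g => ?_
  exact isClosed_eq (continuous_const.mul continuous_id) (continuous_id.mul continuous_const)

instance : T2Space PSL2 := by
  have : IsClosed ((Subgroup.center SL2 : Subgroup SL2) : Set SL2) := isClosed_center
  have h3 : T3Space (SL2 ⧸ Subgroup.center SL2) := inferInstance
  exact inferInstanceAs (T2Space (SL2 ⧸ Subgroup.center SL2))

instance : LocallyCompactSpace PSL2 :=
  inferInstanceAs (LocallyCompactSpace (SL2 ⧸ Subgroup.center SL2))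

instance : SecondCountableTopology PSL2 :=
  inferInstanceAs (SecondCountableTopology (SL2 ⧸ Subgroup.center SL2))

instance [DiscreteTopology Γ] : T2Space (XG Γ) := by
  have h1 : Tendsto (Γ.subtype) cofinite (cocompact PSL2) :=
    Subgroup.tendsto_coe_cofinite_of_discrete Γ (isDiscrete_iff_discreteTopology.2 inferInstance)
  have h2 : ProperlyDiscontinuousSMul Γ PSL2 :=
    Subgroup.properlyDiscontinuousSMul_of_tendsto_cofinite Γ h1
  exact t2Space_of_properlyDiscontinuousSMul_of_t2Space (Γ := Γ) (T := PSL2)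

instance : SecondCountableTopology (XG Γ) :=
  ContinuousConstSMul.secondCountableTopology (Γ := Γ) (T := PSL2)

/-! ### Points are null -/

lemma toPSL_uni_injective : Function.Injective fun t : ℝ => toPSL (uni t) := by
  intro t t' h
  have h1 : (uni t)⁻¹ * uni t' ∈ Subgroup.center SL2 := QuotientGroup.eq.1 h
  rw [← uni_neg, ← uni_add] at h1
  have h2 := Subgroup.mem_center_iff.1 h1 (low 1)
  have h3 : (low 1 * uni (-t + t')) 0 0 = (uni (-t + t') * low 1) 0 0 := by rw [h2]
  rw [mul00, mul00, low00, low01, low10, uni00, uni01] at h3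
  linarith

lemma uncountable_PSL2 : ¬ Countable PSL2 := by
  intro h
  have : Countable ℝ := toPSL_uni_injective.countable
  exact not_countable this

lemma countable_of_discrete [DiscreteTopology Γ] : Countable Γ := by
  have : SecondCountableTopology Γ := inferInstance
  exact TopologicalSpace.separableSpace_iff_countable.1 inferInstance

lemma not_countable_XG [DiscreteTopology Γ] : ¬ Countable (XG Γ) := by
  intro h
  have h1 : Countable Γ := countable_of_discrete Γ
  apply uncountable_PSL2
  have h2 : Function.Surjective fun p : Γ × XG Γ =>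
      (p.1 : PSL2) * Function.surjInv (XG.mk_surjective Γ) p.2 := by
    intro g
    have h3 := Function.surjInv_eq (XG.mk_surjective Γ) (XG.mk Γ g)
    have h4 := (XG.mk_eq_iff Γ _ _).1 h3
    refine ⟨(⟨_, h4⟩, XG.mk Γ g), ?_⟩
    simp
  exact h2.countable

lemma measure_singleton [DiscreteTopology Γ] (μ : Measure (XG Γ)) [IsProbabilityMeasure μ]
    [SMulInvariantMeasure SL2 (XG Γ) μ] (x : XG Γ) : μ {x} = 0 := by
  by_contra hne
  apply not_countable_XG Γ
  have h1 : ∀ y : XG Γ, μ {y} = μ {x} := by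
    intro y
    obtain ⟨g, hg⟩ := transitive Γ x y
    have h2 := (measurePreserving_smul g μ).measure_preimage
      (measurableSet_singleton y).nullMeasurableSet
    rw [← h2]
    congr 1
    ext z
    simp only [Set.mem_preimage, Set.mem_singleton_iff]
    constructor
    · intro hz
      rw [← hg] at hz
      exact (MulAction.injective g) hz
    · rintro rfl
      exact hg
  have h3 : {y : XG Γ | 0 < μ ({y} : Set (XG Γ))}.Countable :=
    Measure.countable_meas_pos_of_disjoint_iUnion (fun y => measurableSet_singleton y)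
      (fun y z hyz => Set.disjoint_singleton.2 hyz)
  have h4 : {y : XG Γ | 0 < μ ({y} : Set (XG Γ))} = Set.univ := by
    ext y
    simp only [Set.mem_univ, iff_true]
    show 0 < μ {y}
    rw [h1 y]
    exact pos_iff_ne_zero.2 hne
  rw [h4] at h3
  exact Set.countable_univ_iff.1 h3

end Pool.Agent.Horo
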