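import Mathlib

/-!
# Single scale estimates
-/

set_option linter.unusedSectionVars false

noncomputable section

namespace Pool.Agent.Horo

open Filter Topology MeasureTheory
open scoped RealInnerProductSpace

section

variable {X : Type*} [MeasurableSpace X] (μ : Measure X) [IsProbabilityMeasure μ]
  {I : Type*} (T : I → X → X)

/-- The indicator function with real values. -/
def chi (E : Set X) (x : X) : ℝ := E.indicator (fun _ => (1:ℝ)) x

lemma chi_nonneg (E : Set X) (x : X) : 0 ≤ chi E x :=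
  Set.indicator_nonneg (fun _ _ => zero_le_one) x

lemma chi_le_one (E : Set X) (x : X) : chi E x ≤ 1 :=
  Set.indicator_le_self' (fun _ _ => zero_le_one) x

lemma chi_mem {E : Set X} {x : X} (h : x ∈ E) : chi E x = 1 := Set.indicator_of_mem h _

lemma chi_not_mem {E : Set X} {x : X} (h : x ∉ E) : chi E x = 0 := Set.indicator_of_notMem h _

lemma chi_zero_or_one (E : Set X) (x : X) : chi E x = 0 ∨ chi E x = 1 := by
  by_cases h : x ∈ E
  · right; exact chi_mem h
  · left; exact chi_not_mem h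

lemma measurable_chi {E : Set X} (hE : MeasurableSet E) : Measurable (chi E) :=
  measurable_const.indicator hE

/-- The function `1_E / μ(E) - 1`. -/
def gf (E : Set X) (x : X) : ℝ := (μ.real E)⁻¹ * chi E x - 1

variable {μ T}

lemma measurable_gf {E : Set X} (hE : MeasurableSet E) : Measurable (gf μ E) :=
  ((measurable_chi hE).const_mul _).sub_const 1

lemma integrable_chi_comp {E : Set X} (hE : MeasurableSet E)
    (hT : ∀ α, MeasurePreserving (T α) μ μ) (α : I) :
    Integrable (fun x => chi E (T α x)) μ := by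
  have h : (fun x => chi E (T α x)) = (T α ⁻¹' E).indicator fun _ => (1:ℝ) := by
    ext x; by_cases h : T α x ∈ E <;> simp [chi, Set.indicator, h]
  rw [h]
  exact (integrable_const (1:ℝ)).indicator ((hT α).measurable hE)

lemma integral_chi_comp {E : Set X} (hE : MeasurableSet E)
    (hT : ∀ α, MeasurePreserving (T α) μ μ) (α : I) :
    ∫ x, chi E (T α x) ∂μ = μ.real E := by
  have h : (fun x => chi E (T α x)) = (T α ⁻¹' E).indicator fun _ => (1:ℝ) := by
    ext x; by_cases h : T α x ∈ E <;> simp [chi, Set.indicator, h]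
  rw [h, integral_indicator ((hT α).measurable hE)]
  simp [(hT α).measureReal_preimage hE.nullMeasurableSet]

lemma chi_mul_chi (E : Set X) (α β : I) :
    (fun x => chi E (T α x) * chi E (T β x)) =
      (T α ⁻¹' E ∩ T β ⁻¹' E).indicator fun _ => (1:ℝ) := by
  ext x
  by_cases h1 : T α x ∈ E <;> by_cases h2 : T β x ∈ E <;>
    simp [chi, Set.indicator, Set.mem_preimage, h1, h2]

lemma integrable_chi_mul {E : Set X} (hE : MeasurableSet E)
    (hT : ∀ α, MeasurePreserving (T α) μ μ) (α β : I) :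
    Integrable (fun x => chi E (T α x) * chi E (T β x)) μ := by
  rw [chi_mul_chi]
  exact (integrable_const (1:ℝ)).indicator (((hT α).measurable hE).inter ((hT β).measurable hE))

lemma integral_chi_mul {E : Set X} (hE : MeasurableSet E)
    (hT : ∀ α, MeasurePreserving (T α) μ μ) (α β : I) :
    ∫ x, chi E (T α x) * chi E (T β x) ∂μ = μ.real (T α ⁻¹' E ∩ T β ⁻¹' E) := by
  rw [chi_mul_chi, integral_indicator (((hT α).measurable hE).inter ((hT β).measurable hE))]
  simp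

lemma integrable_gf_comp {E : Set X} (hE : MeasurableSet E)
    (hT : ∀ α, MeasurePreserving (T α) μ μ) (α : I) :
    Integrable (fun x => gf μ E (T α x)) μ :=
  ((integrable_chi_comp hE hT α).const_mul _).sub (integrable_const 1)

lemma integral_abs_gf_comp {E : Set X} (hE : MeasurableSet E) (hpos : 0 < μ.real E)
    (hT : ∀ α, MeasurePreserving (T α) μ μ) (α : I) :
    ∫ x, |gf μ E (T α x)| ∂μ ≤ 2 := by
  have h1 : ∀ x, |gf μ E (T α x)| ≤ (μ.real E)⁻¹ * chi E (T α x) + 1 := by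
    intro x
    have h0 : 0 ≤ (μ.real E)⁻¹ * chi E (T α x) :=
      mul_nonneg (inv_nonneg.2 hpos.le) (chi_nonneg _ _)
    unfold gf
    rw [abs_le]
    constructor <;> linarith
  have h2 : Integrable (fun x => (μ.real E)⁻¹ * chi E (T α x)) μ :=
    (integrable_chi_comp hE hT α).const_mul _
  have h3 := integral_mono (integrable_gf_comp hE hT α).abs
    (h2.add (integrable_const 1)) h1
  refine h3.trans ?_
  simp only [Pi.add_apply]
  rw [integral_add h2 (integrable_const 1), integral_const_mul, integral_chi_comp hE hT,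
    inv_mul_cancel₀ hpos.ne']
  simp
  norm_num

lemma integral_gf_mul {E : Set X} (hE : MeasurableSet E) (hpos : 0 < μ.real E)
    (hT : ∀ α, MeasurePreserving (T α) μ μ) (α β : I) :
    ∫ x, gf μ E (T α x) * gf μ E (T β x) ∂μ =
      ((μ.real E)⁻¹) ^ 2 * (μ.real (T α ⁻¹' E ∩ T β ⁻¹' E) - (μ.real E) ^ 2) := by
  have h1 : ∀ x, gf μ E (T α x) * gf μ E (T β x) =
      ((μ.real E)⁻¹) ^ 2 * (chi E (T α x) * chi E (T β x)) - (μ.real E)⁻¹ * chi E (T α x)
        - (μ.real E)⁻¹ * chi E (T β x) + 1 := by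
    intro x; unfold gf; ring
  simp only [h1]
  have i1 := (integrable_chi_mul hE hT α β).const_mul (((μ.real E)⁻¹) ^ 2)
  have i2 := (integrable_chi_comp hE hT α).const_mul (μ.real E)⁻¹
  have i3 := (integrable_chi_comp hE hT β).const_mul (μ.real E)⁻¹
  have j1 : Integrable (fun x => ((μ.real E)⁻¹) ^ 2 * (chi E (T α x) * chi E (T β x)) -
      (μ.real E)⁻¹ * chi E (T α x)) μ := i1.sub i2
  have j2 : Integrable (fun x => ((μ.real E)⁻¹) ^ 2 * (chi E (T α x) * chi E (T β x)) -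
      (μ.real E)⁻¹ * chi E (T α x) - (μ.real E)⁻¹ * chi E (T β x)) μ := j1.sub i3
  rw [integral_add j2 (integrable_const 1), integral_sub j1 i3,
    integral_sub i1 i2, integral_const_mul, integral_const_mul, integral_const_mul,
    integral_chi_mul hE hT, integral_chi_comp hE hT, integral_chi_comp hE hT]
  simp
  field_simp
  ring

variable {V : Type*} [NormedAddCommGroup V] [InnerProductSpace ℝ V]

lemma integrable_sum_gf {E : Set X} (hE : MeasurableSet E)
    (hT : ∀ α, MeasurePreserving (T α) μ μ) (F : Finset I) (b : I → V) :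
    Integrable (fun x => ∑ α ∈ F, gf μ E (T α x) • b α) μ :=
  integrable_finsetSum _ fun α _ => (integrable_gf_comp hE hT α).smul_const (b α)

/-- Trivial `L¹` bound. -/
lemma integral_norm_sum_gf_le {E : Set X} (hE : MeasurableSet E) (hpos : 0 < μ.real E)
    (hT : ∀ α, MeasurePreserving (T α) μ μ) (F : Finset I) (b : I → V) :
    ∫ x, ‖∑ α ∈ F, gf μ E (T α x) • b α‖ ∂μ ≤ 2 * ∑ α ∈ F, ‖b α‖ := by
  have h1 : ∀ x, ‖∑ α ∈ F, gf μ E (T α x) • b α‖ ≤ ∑ α ∈ F, |gf μ E (T α x)| * ‖b α‖ := by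
    intro x
    refine (norm_sum_le _ _).trans (le_of_eq ?_)
    refine Finset.sum_congr rfl fun α _ => ?_
    rw [norm_smul, Real.norm_eq_abs]
  have i1 : ∀ α ∈ F, Integrable (fun x => |gf μ E (T α x)| * ‖b α‖) μ := fun α _ =>
    (integrable_gf_comp hE hT α).abs.mul_const _
  refine (integral_mono (integrable_sum_gf hE hT F b).norm (integrable_finsetSum _ i1) h1).trans ?_
  rw [integral_finsetSum _ i1, Finset.mul_sum]
  refine Finset.sum_le_sum fun α _ => ?_
  rw [integral_mul_const]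
  exact mul_le_mul_of_nonneg_right (integral_abs_gf_comp hE hpos hT α) (norm_nonneg _)

lemma norm_sq_sum (F : Finset I) (c : I → ℝ) (b : I → V) :
    ‖∑ α ∈ F, c α • b α‖ ^ 2 = ∑ α ∈ F, ∑ β ∈ F, (c α * c β) * ⟪b α, b β⟫ := by
  rw [← real_inner_self_eq_norm_sq, sum_inner]
  refine Finset.sum_congr rfl fun α _ => ?_
  rw [inner_sum]
  refine Finset.sum_congr rfl fun β _ => ?_
  rw [real_inner_smul_left, real_inner_smul_right]
  ring

lemma integrable_gf_mul {E : Set X} (hE : MeasurableSet E)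
    (hT : ∀ α, MeasurePreserving (T α) μ μ) (α β : I) :
    Integrable (fun x => gf μ E (T α x) * gf μ E (T β x)) μ := by
  have h1 : ∀ x, gf μ E (T α x) * gf μ E (T β x) =
      ((μ.real E)⁻¹) ^ 2 * (chi E (T α x) * chi E (T β x)) - (μ.real E)⁻¹ * chi E (T α x)
        - (μ.real E)⁻¹ * chi E (T β x) + 1 := by
    intro x; unfold gf; ring
  simp only [h1]
  exact ((((integrable_chi_mul hE hT α β).const_mul (((μ.real E)⁻¹) ^ 2)).sub
    ((integrable_chi_comp hE hT α).const_mul (μ.real E)⁻¹)).sub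
    ((integrable_chi_comp hE hT β).const_mul (μ.real E)⁻¹)).add (integrable_const 1)

/-- `L²` bound. -/
lemma integral_norm_sq_le {E : Set X} (hE : MeasurableSet E) (hpos : 0 < μ.real E)
    (hT : ∀ α, MeasurePreserving (T α) μ μ) (F : Finset I) (b : I → V) (θ : ℝ) (hθ : 0 ≤ θ) (M : ℕ)
    (hM : ∀ α, ∀ s : Finset I, (∀ β ∈ s, θ < |μ.real (T α ⁻¹' E ∩ T β ⁻¹' E) - (μ.real E) ^ 2|) →
      s.card ≤ M) (B A : ℝ) (hB : ∀ α ∈ F, ‖b α‖ ≤ B) (hA : ∑ α ∈ F, ‖b α‖ ≤ A) (hB0 : 0 ≤ B) :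
    ∫ x, ‖∑ α ∈ F, gf μ E (T α x) • b α‖ ^ 2 ∂μ ≤
      A * (M * B * (μ.real E)⁻¹ + θ * ((μ.real E)⁻¹) ^ 2 * A) := by
  classical
  set δ := μ.real E with hδ
  have hδ1 : δ ≤ 1 := measureReal_le_one
  simp only [norm_sq_sum]
  have i1 : ∀ α ∈ F, ∀ β ∈ F,
      Integrable (fun x => (gf μ E (T α x) * gf μ E (T β x)) * ⟪b α, b β⟫) μ :=
    fun α _ β _ => (integrable_gf_mul hE hT α β).mul_const _
  rw [integral_finsetSum _ fun α hα => integrable_finsetSum _ (i1 α hα)]
  have hA0 : 0 ≤ A := (Finset.sum_nonneg fun α _ => norm_nonneg _).trans hA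
  have hK : 0 ≤ M * B * δ⁻¹ + θ * (δ⁻¹) ^ 2 * A := by positivity
  have key : ∀ α ∈ F, ∫ x, ∑ β ∈ F, (gf μ E (T α x) * gf μ E (T β x)) * ⟪b α, b β⟫ ∂μ ≤
      ‖b α‖ * (M * B * δ⁻¹ + θ * (δ⁻¹) ^ 2 * A) := by
    intro α hα
    rw [integral_finsetSum _ (i1 α hα)]
    have h2 : ∀ β ∈ F, ∫ x, (gf μ E (T α x) * gf μ E (T β x)) * ⟪b α, b β⟫ ∂μ ≤
        ‖b α‖ * (‖b β‖ * ((δ⁻¹) ^ 2 * |μ.real (T α ⁻¹' E ∩ T β ⁻¹' E) - δ ^ 2|)) := by
      intro β _
      rw [integral_mul_const, integral_gf_mul hE hpos hT]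
      refine (le_abs_self _).trans ?_
      rw [abs_mul, abs_mul, abs_of_nonneg (by positivity : 0 ≤ ((μ.real E)⁻¹) ^ 2)]
      have := abs_real_inner_le_norm (b α) (b β)
      calc _ ≤ (μ.real E)⁻¹ ^ 2 * |μ.real (T α ⁻¹' E ∩ T β ⁻¹' E) - μ.real E ^ 2| *
            (‖b α‖ * ‖b β‖) := by gcongr
        _ = _ := by rw [← hδ]; ring
    refine (Finset.sum_le_sum h2).trans ?_
    rw [← Finset.mul_sum]
    refine mul_le_mul_of_nonneg_left ?_ (norm_nonneg _)
    set p : I → Prop := fun β => θ < |μ.real (T α ⁻¹' E ∩ T β ⁻¹' E) - δ ^ 2| with hp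
    rw [← Finset.sum_filter_add_sum_filter_not F p]
    refine add_le_add ?_ ?_
    · have h3 : ∀ β ∈ F.filter p,
          ‖b β‖ * ((δ⁻¹) ^ 2 * |μ.real (T α ⁻¹' E ∩ T β ⁻¹' E) - δ ^ 2|) ≤ B * δ⁻¹ := by
        intro β hβ
        have hβF : β ∈ F := (Finset.mem_filter.1 hβ).1
        have h4 : |μ.real (T α ⁻¹' E ∩ T β ⁻¹' E) - δ ^ 2| ≤ δ := by
          have h5 : μ.real (T α ⁻¹' E ∩ T β ⁻¹' E) ≤ δ := by
            refine (measureReal_mono Set.inter_subset_left).trans (le_of_eq ?_)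
            exact (hT α).measureReal_preimage hE.nullMeasurableSet
          have h6 : 0 ≤ μ.real (T α ⁻¹' E ∩ T β ⁻¹' E) := measureReal_nonneg
          have h7 : δ ^ 2 ≤ δ := by nlinarith
          have h8 : 0 ≤ δ ^ 2 := sq_nonneg _
          rw [abs_le]; constructor <;> linarith
        calc ‖b β‖ * ((δ⁻¹) ^ 2 * |μ.real (T α ⁻¹' E ∩ T β ⁻¹' E) - δ ^ 2|)
            ≤ B * ((δ⁻¹) ^ 2 * δ) := by
              have := hB β hβF
              gcongr
          _ = B * δ⁻¹ := by field_simp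
      refine (Finset.sum_le_card_nsmul _ _ _ h3).trans ?_
      have h9 : (F.filter p).card ≤ M := hM α _ fun β hβ => (Finset.mem_filter.1 hβ).2
      rw [nsmul_eq_mul, mul_assoc]
      have : ((F.filter p).card : ℝ) ≤ M := by exact_mod_cast h9
      exact mul_le_mul_of_nonneg_right this (by positivity)
    · have h3 : ∀ β ∈ F.filter (fun β => ¬ p β),
          ‖b β‖ * ((δ⁻¹) ^ 2 * |μ.real (T α ⁻¹' E ∩ T β ⁻¹' E) - δ ^ 2|) ≤
            (θ * (δ⁻¹) ^ 2) * ‖b β‖ := by
        intro β hβ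
        have h4 : |μ.real (T α ⁻¹' E ∩ T β ⁻¹' E) - δ ^ 2| ≤ θ :=
          not_lt.1 (Finset.mem_filter.1 hβ).2
        calc ‖b β‖ * ((δ⁻¹) ^ 2 * |μ.real (T α ⁻¹' E ∩ T β ⁻¹' E) - δ ^ 2|)
            ≤ ‖b β‖ * ((δ⁻¹) ^ 2 * θ) := by gcongr
          _ = (θ * (δ⁻¹) ^ 2) * ‖b β‖ := by ring
      refine (Finset.sum_le_sum h3).trans ?_
      rw [← Finset.mul_sum]
      refine mul_le_mul_of_nonneg_left ?_ (by positivity)
      refine (Finset.sum_le_sum_of_subset_of_nonneg (Finset.filter_subset _ _)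
        fun _ _ _ => norm_nonneg _).trans hA
  refine (Finset.sum_le_sum key).trans ?_
  rw [← Finset.sum_mul]
  exact mul_le_mul_of_nonneg_right hA hK

/-- Uniform decay at a fixed scale. -/
lemma exists_decay {E : Set X} (hE : MeasurableSet E) (hpos : 0 < μ.real E)
    (hT : ∀ α, MeasurePreserving (T α) μ μ)
    (hmix : ∀ θ : ℝ, 0 < θ → ∃ M : ℕ, ∀ α, ∀ s : Finset I,
      (∀ β ∈ s, θ < |μ.real (T α ⁻¹' E ∩ T β ⁻¹' E) - (μ.real E) ^ 2|) → s.card ≤ M)
    (κ : ℝ) (hκ : 0 < κ) :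
    ∃ N₀ : ℕ, ∀ N : ℕ, N₀ ≤ N → ∀ (F : Finset I) (b : I → V) (A : ℝ),
      (∀ α ∈ F, ‖b α‖ * N ≤ A) → ∑ α ∈ F, ‖b α‖ ≤ A →
      ∫ x, ‖∑ α ∈ F, gf μ E (T α x) • b α‖ ∂μ ≤ κ * A := by
  set δ := μ.real E with hδ
  obtain ⟨M, hM⟩ := hmix (δ ^ 2 * κ ^ 2 / 2) (by positivity)
  obtain ⟨N₁, hN₁⟩ := exists_nat_gt (2 * M * δ⁻¹ / κ ^ 2)
  refine ⟨N₁ + 1, fun N hN F b A hbA hA => ?_⟩
  have hA0 : 0 ≤ A := (Finset.sum_nonneg fun α _ => norm_nonneg _).trans hA
  rcases hA0.eq_or_lt with h0 | hApos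
  · -- all coefficients vanish
    have hz : ∀ α ∈ F, b α = 0 := by
      intro α hα
      have h1 : ∑ α ∈ F, ‖b α‖ = 0 :=
        le_antisymm (by rw [h0]; exact hA) (Finset.sum_nonneg fun α _ => norm_nonneg _)
      have := (Finset.sum_eq_zero_iff_of_nonneg fun α _ => norm_nonneg (b α)).1 h1 α hα
      exact norm_eq_zero.1 this
    have h2 : ∀ x, ‖∑ α ∈ F, gf μ E (T α x) • b α‖ = 0 := by
      intro x
      rw [Finset.sum_eq_zero fun α hα => by rw [hz α hα, smul_zero], norm_zero]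
    simp only [h2, integral_zero, ← h0, mul_zero, le_refl]
  · have hNpos : (0:ℝ) < N := by
      have : 0 < N := by omega
      exact_mod_cast this
    have hL2 := integral_norm_sq_le (V := V) hE hpos hT F b (δ ^ 2 * κ ^ 2 / 2) (by positivity) M hM
      (A / N) A (fun α hα => by rw [le_div_iff₀ hNpos]; exact hbA α hα) hA (by positivity)
    have h3 : A * (M * (A / N) * (μ.real E)⁻¹ + (δ ^ 2 * κ ^ 2 / 2) * ((μ.real E)⁻¹) ^ 2 * A) ≤
        (κ * A) ^ 2 := by
      rw [← hδ]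
      have h4 : (M:ℝ) * (A / N) * δ⁻¹ ≤ κ ^ 2 / 2 * A := by
        have h5 : 2 * M * δ⁻¹ ≤ κ ^ 2 * N := by
          have h6 : 2 * M * δ⁻¹ / κ ^ 2 ≤ N := by
            refine hN₁.le.trans ?_
            have : N₁ ≤ N := by omega
            exact_mod_cast this
          rw [div_le_iff₀ (by positivity)] at h6
          linarith
        have h7 : (M:ℝ) * (A / N) * δ⁻¹ = (2 * M * δ⁻¹) * (A / (2 * N)) := by
          field_simp
        rw [h7]
        calc (2 * M * δ⁻¹) * (A / (2 * N)) ≤ (κ ^ 2 * N) * (A / (2 * N)) := by gcongr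
          _ = κ ^ 2 / 2 * A := by field_simp
      have h8 : (δ ^ 2 * κ ^ 2 / 2) * (δ⁻¹) ^ 2 * A = κ ^ 2 / 2 * A := by
        field_simp
      rw [h8]
      calc A * (M * (A / N) * δ⁻¹ + κ ^ 2 / 2 * A) ≤ A * (κ ^ 2 / 2 * A + κ ^ 2 / 2 * A) := by
            gcongr
        _ = (κ * A) ^ 2 := by ring
    set f : X → ℝ := fun x => ‖∑ α ∈ F, gf μ E (T α x) • b α‖ with hf
    have hif : Integrable f μ := (integrable_sum_gf hE hT F b).norm
    have hif2 : Integrable (fun x => f x ^ 2) μ := by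
      simp only [hf, norm_sq_sum]
      exact integrable_finsetSum _ fun α _ => integrable_finsetSum _ fun β _ =>
        (integrable_gf_mul hE hT α β).mul_const _
    have hL : 0 < κ * A := by positivity
    have h9 : ∀ x, f x ≤ (κ * A) / 2 + f x ^ 2 / (2 * (κ * A)) := by
      intro x
      have : 0 ≤ (f x - κ * A) ^ 2 / (2 * (κ * A)) := by positivity
      have h10 : (f x - κ * A) ^ 2 / (2 * (κ * A)) =
          f x ^ 2 / (2 * (κ * A)) - f x + (κ * A) / 2 := by
        field_simp; ring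
      linarith
    calc ∫ x, f x ∂μ ≤ ∫ x, ((κ * A) / 2 + f x ^ 2 / (2 * (κ * A))) ∂μ :=
          integral_mono hif ((integrable_const _).add (hif2.div_const _)) h9
      _ = (κ * A) / 2 + (∫ x, f x ^ 2 ∂μ) / (2 * (κ * A)) := by
          rw [integral_add (integrable_const _) (hif2.div_const _),
            integral_div (2 * (κ * A)) fun x => f x ^ 2]
          simp
      _ ≤ (κ * A) / 2 + (κ * A) ^ 2 / (2 * (κ * A)) := by
          have := hL2.trans h3
          gcongr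
      _ = κ * A := by field_simp; ring

/-- Lower bound for nearly disjoint translates. -/
lemma sum_chi_lower {E : Set X} (hE : MeasurableSet E)
    (hT : ∀ α, MeasurePreserving (T α) μ μ)
    (hdis : ∀ α β, α ≠ β → μ.real (T α ⁻¹' E ∩ T β ⁻¹' E) ≤ 2 * (μ.real E) ^ 2)
    (F : Finset I) (a : I → V) (N : ℕ) (hN : F.card ≤ N) :
    (μ.real E - 2 * N * (μ.real E) ^ 2) * ∑ α ∈ F, ‖a α‖ ≤
      ∫ x, ‖∑ α ∈ F, chi E (T α x) • a α‖ ∂μ := by
  classical
  set δ := μ.real E with hδ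
  have hpt : ∀ x, ∑ α ∈ F, ‖a α‖ * (chi E (T α x) -
      ∑ β ∈ F.erase α, chi E (T α x) * chi E (T β x)) ≤ ‖∑ α ∈ F, chi E (T α x) • a α‖ := by
    intro x
    by_cases h1 : ∃ α ∈ F, ∃ β ∈ F, α ≠ β ∧ T α x ∈ E ∧ T β x ∈ E
    · obtain ⟨α0, hα0, β0, hβ0, hne, hxα, hxβ⟩ := h1
      refine le_trans (Finset.sum_nonpos fun α hα => ?_) (norm_nonneg _)
      refine mul_nonpos_of_nonneg_of_nonpos (norm_nonneg _) ?_
      rcases chi_zero_or_one E (T α x) with h | h
      · rw [h]; simp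
      · rw [h]
        have hex : ∃ β ∈ F.erase α, T β x ∈ E := by
          by_cases hc : α = α0
          · exact ⟨β0, Finset.mem_erase.2 ⟨by rw [hc]; exact hne.symm, hβ0⟩, hxβ⟩
          · exact ⟨α0, Finset.mem_erase.2 ⟨Ne.symm hc, hα0⟩, hxα⟩
        obtain ⟨β, hβ, hxβ'⟩ := hex
        have h3 : (1:ℝ) * chi E (T β x) ≤ ∑ β ∈ F.erase α, 1 * chi E (T β x) :=
          Finset.single_le_sum (f := fun β => 1 * chi E (T β x))
            (fun β _ => by rw [one_mul]; exact chi_nonneg _ _) hβ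
        rw [chi_mem hxβ'] at h3
        linarith
    · push Not at h1
      by_cases h2 : ∃ α ∈ F, T α x ∈ E
      · obtain ⟨α0, hα0, hxα⟩ := h2
        have h3 : ∀ α ∈ F, α ≠ α0 → chi E (T α x) = 0 := fun α hα hne =>
          chi_not_mem (h1 α0 hα0 α hα (Ne.symm hne) hxα)
        have e1 : ∑ α ∈ F, chi E (T α x) • a α = a α0 := by
          rw [Finset.sum_eq_single_of_mem α0 hα0 fun α hα hne => by rw [h3 α hα hne, zero_smul],
            chi_mem hxα, one_smul]
        rw [e1]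
        rw [Finset.sum_eq_single_of_mem α0 hα0 fun α hα hne => by
          rw [h3 α hα hne]; simp]
        rw [chi_mem hxα]
        have h4 : 0 ≤ ∑ β ∈ F.erase α0, (1:ℝ) * chi E (T β x) :=
          Finset.sum_nonneg fun β _ => by rw [one_mul]; exact chi_nonneg _ _
        have h5 := norm_nonneg (a α0)
        nlinarith
      · push Not at h2
        have h3 : ∀ α ∈ F, chi E (T α x) = 0 := fun α hα => chi_not_mem (h2 α hα)
        refine le_trans (le_of_eq (Finset.sum_eq_zero fun α hα => ?_)) (norm_nonneg _)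
        rw [h3 α hα]; simp
  have i1 : ∀ α ∈ F, Integrable (fun x => ‖a α‖ * (chi E (T α x) -
      ∑ β ∈ F.erase α, chi E (T α x) * chi E (T β x))) μ := fun α _ =>
    ((integrable_chi_comp hE hT α).sub
      (integrable_finsetSum _ fun β _ => integrable_chi_mul hE hT α β)).const_mul _
  have i2 : Integrable (fun x => ∑ α ∈ F, chi E (T α x) • a α) μ :=
    integrable_finsetSum _ fun α _ => (integrable_chi_comp hE hT α).smul_const (a α)
  refine le_trans ?_ (integral_mono (integrable_finsetSum _ i1) i2.norm hpt)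
  rw [integral_finsetSum _ i1, Finset.mul_sum]
  refine Finset.sum_le_sum fun α hα => ?_
  rw [integral_const_mul, integral_sub (integrable_chi_comp hE hT α)
    (integrable_finsetSum _ fun β _ => integrable_chi_mul hE hT α β),
    integral_finsetSum _ fun β _ => integrable_chi_mul hE hT α β, integral_chi_comp hE hT]
  have h6 : ∑ β ∈ F.erase α, ∫ x, chi E (T α x) * chi E (T β x) ∂μ ≤ 2 * N * δ ^ 2 := by
    have h7 : ∀ β ∈ F.erase α, ∫ x, chi E (T α x) * chi E (T β x) ∂μ ≤ 2 * δ ^ 2 := by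
      intro β hβ
      rw [integral_chi_mul hE hT]
      exact hdis α β (Ne.symm (Finset.ne_of_mem_erase hβ))
    refine (Finset.sum_le_card_nsmul _ _ _ h7).trans ?_
    rw [nsmul_eq_mul]
    have h8 : ((F.erase α).card : ℝ) ≤ N := by
      exact_mod_cast (Finset.card_erase_le.trans hN)
    nlinarith [sq_nonneg δ]
  have h9 := norm_nonneg (a α)
  rw [← hδ]
  nlinarith

end

end Pool.Agent.Horo
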